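import Pool.Agent.H511R3.EDomFin

set_option autoImplicit false

namespace Pool.Agent.H511R3.EDom

open Finset

theorem iq_fr (m : Bool) {N k : ℕ} {v : ℕ × ℕ} (hv : Gr N v) (s : ℕ) :
    iq m (kf m N k s) (fr N s v).1 (fr N s v).2 = iq m k v.1 v.2 := by
  induction s with
  | zero => rfl
  | succ s ih =>
    rw [← ih, fr_succ]
    have hg := fr_gr hv s
    exact iq_rot m _ (by unfold Gr at hg; omega)

/-- the natural cells of the two boundary rows -/
def nat2 (y u : ℕ) : Bool := (Nat.beq y 1 && Nat.beq u 3) || (Nat.beq y 2 && Nat.beq u 1)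

/-- the extra guards of the two boundary rows -/
def ex2 (e y u : ℕ) : Bool := rb e y u && !nat2 y u

theorem iq_of_nat2 {m : Bool} {k x y : ℕ} (h : nat2 y (u1 m k x) = true) :
    iq m k x y = true := by
  unfold nat2 u1 at h
  unfold iq
  simp only [Bool.or_eq_true, Bool.and_eq_true, Nat.beq_eq] at h ⊢
  cases m
  · simp only [cond_false] at h ⊢
    rcases h with ⟨rfl, h⟩ | ⟨rfl, h⟩ <;> omega
  · simp only [cond_true] at h ⊢
    rcases h with ⟨rfl, h⟩ | ⟨rfl, h⟩ <;> omega

theorem ex2_unique_chk : allN 0 (fun e => allN 1 (fun y => allN 0 (fun u => allN 1 (fun y' =>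
    allN 0 (fun u' => bif ex2 e y u && ex2 e y' u' then Nat.beq y y' && Nat.beq u u' else true)
      5) 2) 5) 2) 4 = true := by decide +kernel

theorem ex2_unique {e y u y' u' : ℕ} (he : e < 4) (hy : 1 ≤ y) (hy2 : y ≤ 2) (hu : u < 5)
    (hy' : 1 ≤ y') (hy2' : y' ≤ 2) (hu' : u' < 5) (h : ex2 e y u = true)
    (h' : ex2 e y' u' = true) : y = y' ∧ u = u' := by
  have H := ex2_unique_chk
  rw [allN_iff] at H
  have H1 := H e (by omega) (by omega)
  rw [allN_iff] at H1
  have H2 := H1 y (by omega) (by omega)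
  rw [allN_iff] at H2
  have H3 := H2 u (by omega) (by omega)
  rw [allN_iff] at H3
  have H4 := H3 y' (by omega) (by omega)
  rw [allN_iff] at H4
  have H5 := H4 u' (by omega) (by omega)
  rw [h, h', Bool.and_true, cond_true] at H5
  simp only [Bool.and_eq_true, Nat.beq_eq] at H5
  exact H5

theorem u1_lt (m : Bool) (k x : ℕ) : u1 m k x < 5 := by
  unfold u1; cases m <;> simp only [cond_true, cond_false] <;> omega

theorem u1_inj {m : Bool} {k x x' : ℕ} (h : u1 m k x = u1 m k x') : x % 5 = x' % 5 := by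
  unfold u1 at h; cases m <;> simp only [cond_true, cond_false] at h <;> omega

/-- the three types of guards -/
theorem G_cases {N : ℕ} (hN : 12 ≤ N) {σ : St} (hk : σ.k < 5) {v : ℕ × ℕ} (hv : Gr N v)
    (hG : G N σ v) : iq σ.m σ.k v.1 v.2 = true ∨
      (∃ s, s < 4 ∧ (fr N s v).2 ≤ 2 ∧
        ex2 (EE σ.e s) (fr N s v).2 (u1 σ.m (kf σ.m N σ.k s) (fr N s v).1) = true) ∨
      (∃ s, s < 4 ∧ (fr N s v).1 ≤ 3 ∧ (fr N s v).2 ≤ 3) := by
  -- first without the bound on the frame
  have key : iq σ.m σ.k v.1 v.2 = true ∨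
      (∃ s, (fr N s v).2 ≤ 2 ∧
        ex2 (EE σ.e s) (fr N s v).2 (u1 σ.m (kf σ.m N σ.k s) (fr N s v).1) = true) ∨
      (∃ s, (fr N s v).1 ≤ 3 ∧ (fr N s v).2 ≤ 3) := by
    have row : ∀ s, safe N (fr N s v) → 4 ≤ (fr N s v).1 →
        iq σ.m σ.k v.1 v.2 = true ∨ ((fr N s v).2 ≤ 2 ∧
        ex2 (EE σ.e s) (fr N s v).2 (u1 σ.m (kf σ.m N σ.k s) (fr N s v).1) = true) := by
      intro s hs h4
      have hq := (G_iff hk hv hs).1 hG
      unfold QF at hq
      rw [Q_eq] at hq
      have a1 : ¬ ((fr N s v).1 = 0 ∨ (fr N s v).2 = 0) := by unfold safe at hs; omega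
      have a2 : ¬ ((fr N s v).1 ≤ 3 ∧ (fr N s v).2 ≤ 3) := by omega
      rw [if_neg a1, if_neg a2] at hq
      by_cases hy : (fr N s v).2 ≤ 2
      · rw [if_pos hy] at hq
        by_cases hn : nat2 (fr N s v).2 (u1 σ.m (kf σ.m N σ.k s) (fr N s v).1) = true
        · left
          rw [← iq_fr σ.m hv s]
          exact iq_of_nat2 hn
        · right
          refine ⟨hy, ?_⟩
          unfold ex2
          rw [hq]
          simp only [Bool.true_and, Bool.not_eq_true'] 
          exact Bool.eq_false_iff.2 hn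
      · rw [if_neg hy, if_neg (by omega)] at hq
        left
        rw [← iq_fr σ.m hv s]
        exact hq
    have hs := sel_safe hN hv
    have hh := sel_half hv
    set s := sel N v
    by_cases h3 : (fr N s v).1 ≤ 3
    · by_cases h3' : (fr N s v).2 ≤ 3
      · exact Or.inr (Or.inr ⟨s, h3, h3'⟩)
      · -- switch to the frame of the left side
        have e : fr N (s + 3) v = (N - (fr N s v).2, N - (N - (fr N s v).1)) := by
          rw [show s + 3 = s + 1 + 1 + 1 by ring, fr_succ, fr_succ, fr_succ]; rfl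
        have hs' : safe N (fr N (s + 3) v) := by
          rw [e]; unfold safe half at *; simp only; omega
        have h4' : 4 ≤ (fr N (s + 3) v).1 := by
          rw [e]; unfold half at hh; simp only; omega
        rcases row (s + 3) hs' h4' with h | h
        · exact Or.inl h
        · exact Or.inr (Or.inl ⟨s + 3, h⟩)
    · rcases row s hs (by omega) with h | h
      · exact Or.inl h
      · exact Or.inr (Or.inl ⟨s, h⟩)
  have fm : ∀ s, fr N (s % 4) v = fr N s v := by
    intro s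
    have := fr_mul hv (s % 4) (s / 4)
    rw [← this, Nat.mod_add_div]
  have km : ∀ s, kf σ.m N σ.k (s % 4) = kf σ.m N σ.k s := by
    intro s
    have : ∀ a i, kf σ.m N σ.k (a + 4 * i) = kf σ.m N σ.k a := by
      intro a i
      induction i with
      | zero => rfl
      | succ i ih => rw [← ih]; exact kf_four _ _ hk _
    rw [← this (s % 4) (s / 4), Nat.mod_add_div]
  have em : ∀ s, EE σ.e (s % 4) = EE σ.e s := by
    intro s; unfold EE; rw [Nat.mod_mod]
  rcases key with h | ⟨s, h1, h2⟩ | ⟨s, h1, h2⟩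
  · exact Or.inl h
  · refine Or.inr (Or.inl ⟨s % 4, Nat.mod_lt _ (by norm_num), ?_, ?_⟩)
    · rw [fm]; exact h1
    · rw [fm, km, em]; exact h2
  · refine Or.inr (Or.inr ⟨s % 4, Nat.mod_lt _ (by norm_num), ?_, ?_⟩)
    · rw [fm]; exact h1
    · rw [fm]; exact h2

/-- the grid as a finset -/
def Sg (n : ℕ) : Finset (ℕ × ℕ) := Icc 1 n ×ˢ Icc 1 n

theorem mem_Sg {n : ℕ} {v : ℕ × ℕ} : v ∈ Sg n ↔ Gr (n + 1) v := by
  unfold Sg Gr
  simp only [mem_product, mem_Icc]
  omega

theorem fr_inj {N : ℕ} {v w : ℕ × ℕ} (hv : Gr N v) (hw : Gr N w) {s : ℕ}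
    (h : fr N s v = fr N s w) : v = w := by
  have h1 := fr_three hv s
  have h2 := fr_three hw s
  rw [h, h2] at h1
  exact h1.symm

theorem card_frame (n s : ℕ) (P : ℕ × ℕ → Prop) [DecidablePred P] :
    ((Sg n).filter (fun v => P (fr (n + 1) s v))).card ≤ ((Sg n).filter P).card := by
  apply card_le_card_of_injOn (fun v => fr (n + 1) s v)
  · intro v hv
    simp only [coe_filter, Set.mem_setOf_eq] at hv ⊢
    exact ⟨mem_Sg.2 (fr_gr (mem_Sg.1 hv.1) s), hv.2⟩
  · intro v hv w hw h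
    simp only [coe_filter, Set.mem_setOf_eq] at hv hw
    exact fr_inj (mem_Sg.1 hv.1) (mem_Sg.1 hw.1) h

theorem card_blk (n : ℕ) : ((Sg n).filter (fun v => v.1 ≤ 3 ∧ v.2 ≤ 3)).card ≤ 9 := by
  have : ((Sg n).filter (fun v => v.1 ≤ 3 ∧ v.2 ≤ 3)) ⊆ Icc 1 3 ×ˢ Icc 1 3 := by
    intro v hv
    simp only [mem_filter, Sg, mem_product, mem_Icc] at hv ⊢
    omega
  refine (card_le_card this).trans ?_
  simp

theorem card_ex (n : ℕ) (m : Bool) (k : ℕ) {e : ℕ} (he : e < 4) :
    ((Sg n).filter (fun v => v.2 ≤ 2 ∧ ex2 e v.2 (u1 m k v.1) = true)).card ≤ n / 5 + 1 := by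
  have : ((Sg n).filter (fun v => v.2 ≤ 2 ∧ ex2 e v.2 (u1 m k v.1) = true)).card ≤
      (range (n / 5 + 1)).card := by
    apply card_le_card_of_injOn (fun v => v.1 / 5)
    · intro v hv
      simp only [coe_filter, Set.mem_setOf_eq, Sg, mem_product, mem_Icc, coe_range,
        Set.mem_Iio] at hv ⊢
      have : v.1 / 5 ≤ n / 5 := Nat.div_le_div_right hv.1.1.2
      omega
    · intro v hv w hw h
      simp only [coe_filter, Set.mem_setOf_eq, Sg, mem_product, mem_Icc] at hv hw h
      have h1 := ex2_unique he hv.1.2.1 hv.2.1 (u1_lt m k v.1) hw.1.2.1 hw.2.1 (u1_lt m k w.1)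
        hv.2.2 hw.2.2
      have h2 := u1_inj h1.2
      ext
      · omega
      · exact h1.1
  rwa [card_range] at this

theorem iq_injx {m : Bool} {k x x' y : ℕ} (h : iq m k x y = true) (h' : iq m k x' y = true) :
    x % 5 = x' % 5 := by
  unfold iq at h h'
  rw [Nat.beq_eq] at h h'
  cases m <;> simp only [cond_true, cond_false] at h h' <;> omega

theorem iq_injy {m : Bool} {k x y y' : ℕ} (h : iq m k x y = true) (h' : iq m k x y' = true) :
    y % 5 = y' % 5 := by
  unfold iq at h h'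
  rw [Nat.beq_eq] at h h'
  cases m <;> simp only [cond_true, cond_false] at h h' <;> omega

theorem card_iq (n : ℕ) (m : Bool) (k : ℕ) :
    5 * ((Sg n).filter (fun v => iq m k v.1 v.2 = true)).card ≤ n ^ 2 + 6 := by
  classical
  set q := n / 5 with hq
  set r := n % 5 with hr
  have hn : n = 5 * q + r := by omega
  have hr5 : r < 5 := by omega
  have h1 : ((Sg n).filter (fun v => iq m k v.1 v.2 = true)) ⊆
      ((Sg n).filter (fun v => iq m k v.1 v.2 = true ∧ v.1 ≤ 5 * q)) ∪
      ((Sg n).filter (fun v => iq m k v.1 v.2 = true ∧ ¬ v.1 ≤ 5 * q)) := by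
    intro v hv
    simp only [mem_union, mem_filter] at hv ⊢
    tauto
  have h2 := (card_le_card h1).trans (card_union_le _ _)
  have c1 : ((Sg n).filter (fun v => iq m k v.1 v.2 = true ∧ v.1 ≤ 5 * q)).card ≤ q * n := by
    have : ((Sg n).filter (fun v => iq m k v.1 v.2 = true ∧ v.1 ≤ 5 * q)).card ≤
        (range q ×ˢ Icc 1 n).card := by
      apply card_le_card_of_injOn (fun v => ((v.1 - 1) / 5, v.2))
      · intro v hv
        simp only [coe_filter, Set.mem_setOf_eq, Sg, mem_product, mem_Icc] at hv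
        simp only [coe_product, Set.mem_prod, mem_coe, mem_range, mem_Icc]
        omega
      · intro v hv w hw h
        simp only [coe_filter, Set.mem_setOf_eq, Sg, mem_product, mem_Icc] at hv hw
        simp only [Prod.mk.injEq] at h
        obtain ⟨g1, g2⟩ := h
        have h3 := hv.2.1
        rw [g2] at h3
        have h4 := iq_injx h3 hw.2.1
        ext
        · omega
        · exact g2
    rw [card_product, card_range, Nat.card_Icc] at this
    simpa using this
  have c2 : ((Sg n).filter (fun v => iq m k v.1 v.2 = true ∧ ¬ v.1 ≤ 5 * q)).card ≤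
      r * (q + 1) := by
    have : ((Sg n).filter (fun v => iq m k v.1 v.2 = true ∧ ¬ v.1 ≤ 5 * q)).card ≤
        (Ioc (5 * q) n ×ˢ range (q + 1)).card := by
      apply card_le_card_of_injOn (fun v => (v.1, v.2 / 5))
      · intro v hv
        simp only [coe_filter, Set.mem_setOf_eq, Sg, mem_product, mem_Icc] at hv
        simp only [coe_product, Set.mem_prod, mem_coe, mem_range, mem_Ioc]
        have : v.2 / 5 ≤ n / 5 := Nat.div_le_div_right hv.1.2.2
        omega
      · intro v hv w hw h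
        simp only [coe_filter, Set.mem_setOf_eq, Sg, mem_product, mem_Icc] at hv hw
        simp only [Prod.mk.injEq] at h
        obtain ⟨g1, g2⟩ := h
        have h3 := hv.2.1
        rw [g1] at h3
        have h4 := iq_injy h3 hw.2.1
        ext
        · exact g1
        · omega
    rw [card_product, card_range, Nat.card_Ioc] at this
    have e : n - 5 * q = r := by omega
    rwa [e] at this
  have h3 : ((Sg n).filter (fun v => iq m k v.1 v.2 = true)).card ≤ q * n + r * (q + 1) := by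
    omega
  have h4 : 5 * (q * n + r * (q + 1)) ≤ n ^ 2 + 6 := by
    rw [hn]
    clear_value q r
    interval_cases r <;> nlinarith
  omega

theorem card_G {n : ℕ} (hn : 11 ≤ n) {σ : St} (hk : σ.k < 5) (he : ∀ s, s < 4 → EE σ.e s < 4)
    (S : Finset (ℕ × ℕ)) (hS : ∀ v ∈ S, Gr (n + 1) v ∧ G (n + 1) σ v) :
    5 * S.card ≤ (n + 2) ^ 2 + 222 := by
  classical
  have hsub : S ⊆ (Sg n).filter (fun v => iq σ.m σ.k v.1 v.2 = true) ∪
      ((range 4).biUnion (fun s => (Sg n).filter (fun v => (fun p : ℕ × ℕ => p.2 ≤ 2 ∧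
        ex2 (EE σ.e s) p.2 (u1 σ.m (kf σ.m (n + 1) σ.k s) p.1) = true) (fr (n + 1) s v))) ∪
      (range 4).biUnion (fun s => (Sg n).filter (fun v =>
        (fun p : ℕ × ℕ => p.1 ≤ 3 ∧ p.2 ≤ 3) (fr (n + 1) s v)))) := by
    intro v hv
    obtain ⟨hg, hG⟩ := hS v hv
    have hgS := mem_Sg.2 hg
    simp only [mem_union, mem_filter, mem_biUnion, mem_range]
    rcases G_cases (by omega) hk hg hG with h | ⟨s, h0, h1, h2⟩ | ⟨s, h0, h1, h2⟩
    · exact Or.inl ⟨hgS, h⟩
    · exact Or.inr (Or.inl ⟨s, h0, hgS, h1, h2⟩)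
    · exact Or.inr (Or.inr ⟨s, h0, hgS, h1, h2⟩)
  have h1 := card_le_card hsub
  have h2 := card_union_le ((Sg n).filter (fun v => iq σ.m σ.k v.1 v.2 = true))
      ((range 4).biUnion (fun s => (Sg n).filter (fun v => (fun p : ℕ × ℕ => p.2 ≤ 2 ∧
        ex2 (EE σ.e s) p.2 (u1 σ.m (kf σ.m (n + 1) σ.k s) p.1) = true) (fr (n + 1) s v))) ∪
      (range 4).biUnion (fun s => (Sg n).filter (fun v =>
        (fun p : ℕ × ℕ => p.1 ≤ 3 ∧ p.2 ≤ 3) (fr (n + 1) s v))))
  have h3 := card_union_le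
      ((range 4).biUnion (fun s => (Sg n).filter (fun v => (fun p : ℕ × ℕ => p.2 ≤ 2 ∧
        ex2 (EE σ.e s) p.2 (u1 σ.m (kf σ.m (n + 1) σ.k s) p.1) = true) (fr (n + 1) s v))))
      ((range 4).biUnion (fun s => (Sg n).filter (fun v =>
        (fun p : ℕ × ℕ => p.1 ≤ 3 ∧ p.2 ≤ 3) (fr (n + 1) s v))))
  have h4 : ((range 4).biUnion (fun s => (Sg n).filter (fun v => (fun p : ℕ × ℕ => p.2 ≤ 2 ∧
        ex2 (EE σ.e s) p.2 (u1 σ.m (kf σ.m (n + 1) σ.k s) p.1) = true) (fr (n + 1) s v)))).card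
        ≤ 4 * (n / 5 + 1) := by
    refine card_biUnion_le.trans ?_
    refine (Finset.sum_le_card_nsmul _ _ (n / 5 + 1) ?_).trans (by simp)
    intro s hs
    have h0 := card_frame n s (fun p : ℕ × ℕ => p.2 ≤ 2 ∧
        ex2 (EE σ.e s) p.2 (u1 σ.m (kf σ.m (n + 1) σ.k s) p.1) = true)
    exact h0.trans (card_ex n σ.m _ (he s (mem_range.1 hs)))
  have h5 : ((range 4).biUnion (fun s => (Sg n).filter (fun v =>
        (fun p : ℕ × ℕ => p.1 ≤ 3 ∧ p.2 ≤ 3) (fr (n + 1) s v)))).card ≤ 4 * 9 := by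
    refine card_biUnion_le.trans ?_
    refine (Finset.sum_le_card_nsmul _ _ 9 ?_).trans (by simp)
    intro s hs
    have h0 := card_frame n s (fun p : ℕ × ℕ => p.1 ≤ 3 ∧ p.2 ≤ 3)
    exact h0.trans (card_blk n)
  have h6 := card_iq n σ.m σ.k
  have h7 : (n + 2) ^ 2 = n ^ 2 + 4 * n + 4 := by ring
  have h8 : 5 * (n / 5) ≤ n := by omega
  omega

end Pool.Agent.H511R3.EDom
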