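import Pool.Agent.H511R3.EDomFin

set_option autoImplicit false
set_option maxRecDepth 100000

namespace Pool.Agent.H511R3.EDom

def sts2 : List St := [
  ⟨false, 0, 590, 0⟩,
  ⟨false, 1, 398, 0⟩,
  ⟨false, 2, 454, 0⟩,
  ⟨false, 3, 0, 0⟩,
  ⟨false, 4, 118, 0⟩,
  ⟨true, 0, 94, 0⟩,
  ⟨true, 1, 518, 0⟩,
  ⟨true, 2, 470, 0⟩,
  ⟨true, 3, 478, 0⟩,
  ⟨true, 4, 0, 0⟩]

def trs2 : List (List (ℕ × ℕ × ℕ)) := [
  [(5, 0, 0), (6, 4494191446601562500, 2992155628867187500), (7, 1760651973753061592975000, 587522466742115683987500), (8, 0, 0), (9, 0, 0)],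
  [(5, 0, 0), (6, 7604514086246952022866632, 9388515365123902794786396), (7, 4694126546382904053912500, 9388513863086700440237500), (8, 0, 0), (9, 0, 0)],
  [(5, 8777717669143676757812500, 5844053962631225585937500), (6, 0, 0), (7, 0, 0), (8, 10298621077673352051017560, 13542522826596075439531980), (9, 0, 0)],
  [(5, 0, 0), (6, 0, 0), (7, 0, 0), (8, 0, 0), (9, 1924456151184586515883296, 1009047548034932484510432)],
  [(5, 8777716167204695571333160, 2933666410850260296181980), (6, 0, 0), (7, 0, 0), (8, 2301026020660, 1531983681980), (9, 0, 0)],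
  [(0, 0, 0), (2, 5844053962631225585937500, 8777717669143676757812500), (1, 0, 0), (4, 2933666410850260296181980, 8777716167204695571333160), (3, 0, 0)],
  [(0, 2992155628867187500, 4494191446601562500), (2, 0, 0), (1, 9388515365123902794786396, 7604514086246952022866632), (4, 0, 0), (3, 0, 0)],
  [(0, 587522466742115683987500, 1760651973753061592975000), (2, 0, 0), (1, 9388513863086700440237500, 4694126546382904053912500), (4, 0, 0), (3, 0, 0)],
  [(0, 0, 0), (2, 13542522826596075439531980, 10298621077673352051017560), (1, 0, 0), (4, 1531983681980, 2301026020660), (3, 0, 0)],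
  [(0, 0, 0), (2, 0, 0), (1, 0, 0), (4, 0, 0), (3, 1009047548034932484510432, 1924456151184586515883296)]]

theorem ok2_0 : stOK 2 sts2 trs2 0 = true := by decide +kernel
theorem ok2_1 : stOK 2 sts2 trs2 1 = true := by decide +kernel
theorem ok2_2 : stOK 2 sts2 trs2 2 = true := by decide +kernel
theorem ok2_3 : stOK 2 sts2 trs2 3 = true := by decide +kernel
theorem ok2_4 : stOK 2 sts2 trs2 4 = true := by decide +kernel
theorem ok2_5 : stOK 2 sts2 trs2 5 = true := by decide +kernel
theorem ok2_6 : stOK 2 sts2 trs2 6 = true := by decide +kernel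
theorem ok2_7 : stOK 2 sts2 trs2 7 = true := by decide +kernel
theorem ok2_8 : stOK 2 sts2 trs2 8 = true := by decide +kernel
theorem ok2_9 : stOK 2 sts2 trs2 9 = true := by decide +kernel

theorem ok2 (i : ℕ) (hi : i < 10) : stOK 2 sts2 trs2 i = true := by
  match i, hi with
  | 0, _ => exact ok2_0
  | 1, _ => exact ok2_1
  | 2, _ => exact ok2_2
  | 3, _ => exact ok2_3
  | 4, _ => exact ok2_4
  | 5, _ => exact ok2_5
  | 6, _ => exact ok2_6
  | 7, _ => exact ok2_7
  | 8, _ => exact ok2_8
  | 9, _ => exact ok2_9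
  | (n + 10), h => omega

theorem closed2 {N : ℕ} (hN : N % 5 = 2) : Closed N sts2 := by
  apply closed_of_stOK (trs := trs2)
  intro i hi
  rw [hN]
  exact ok2 i hi

end Pool.Agent.H511R3.EDom
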