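import Mathlib

/-!
# m-eternal domination of the square grid: the guard patterns (definitions and tables)

Everything is encoded by natural numbers so that the finite checks can be run by the kernel.
`m = false`: chirality `+` (pattern `x + 2 y = k mod 5`); `m = true`: chirality `-`
(pattern `x - 2 y = k mod 5`). Directions: `0` stay, `1` right, `2` up, `3` left, `4` down.
-/

set_option autoImplicit false

namespace Pool.Agent.H511R3.EDom

/-- the `i`-th base-`b` digit of `T` -/
def dig (T b i : ℕ) : ℕ := T / b ^ i % b

/-- row patterns of the five side variants (rows 1 and 2) -/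
def RB : ℕ := 228810180077641
/-- moves in rows 1 and 2 -/
def RM : ℕ := 771416746935429939337676772410585698368634638080568762323376253462830980490239986968720918581277071783254110889115678025077369245054658605975222899787481356604861621973087111126565750105254210336784492339487755764235386601971102184238606784958198841177839415556250539728325147073883521891062482559784485381121928128552151612625730701420433134447423517619613524036404478679400820502619548679222898655640519267068852436893603928613777570127570420844163950499513130324982235135853592726751707127386581480959388207095676227642373123410598997884875426736475665431481456920944036618332527792846621811861342048913937743043050598245929245842698818855936731497158691193333213588835877657467255631588400454205912673931731464820977505636895815239890119857600907315987397223427890224955665258093455424117653921964807638212006411831399764148259345049918437845048227292767357240436236137643595336945658459809626694173219044638095735531455442095818533787098067098127198884808244462486651676701560017411361694055130955113488842257670077141866338095267795912018945534332832786472060649855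838178208837080996002626630136478755632789198717219861661617014906945920512656462519700954580657263847342318773145988761232802753028816692812191756813829157068650852962664613106126426721420339256777361713439930764119054502336750314446206882293532710166446805592198283817911681743476572233059677743918249786122324056771267160887695160293693243425577344883812092576524597460598365253479179674534613908602824706382907012975993250294390291708033253026870192785095004157912689968076740199385435936436403627683837494608351047696993909610670096210711092714201593589629795671284018227332849360360672594652502098933947970831935682428875041953024484176213500206709842419720004912141000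
/-- valid transitions of side variants -/
def VL : ℕ := 1803931325686006056035726244611700750993092942938440963636108098302039592703
/-- the 3x3 corner blocks -/
def BK : ℕ := 1415428021236782508964522235199923831017885185872152304795301476852919419861990399

def b2n (m : Bool) : ℕ := bif m then 1 else 0

def rb (e y u : ℕ) : Bool := Nat.beq (dig RB 2 (10 * e + 5 * (y - 1) + u)) 1
def rm (m : Bool) (j e f y u : ℕ) : ℕ :=
  dig RM 5 (((((b2n m * 5 + j) * 5 + e) * 5 + f) * 2 + (y - 1)) * 5 + u)
def vl (m : Bool) (j e f : ℕ) : Bool := Nat.beq (dig VL 2 ((b2n m * 5 + j) * 25 + e * 5 + f)) 1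
def bk (m : Bool) (k h c : ℕ) : Bool := Nat.beq (dig BK 2 (((b2n m * 5 + k) * 3 + h) * 9 + c)) 1
def u1 (m : Bool) (k x : ℕ) : ℕ := bif m then (k + 4 * x) % 5 else (x + 4 * k) % 5
def u2 (m : Bool) (k y : ℕ) : ℕ := bif m then (y + 3 * k) % 5 else (4 * y + 3 * k) % 5
def iq (m : Bool) (k x y : ℕ) : Bool := Nat.beq ((x + (bif m then 3 else 2) * y + 4 * k) % 5) 0

/-- the guard pattern in a quadrant -/
def Q (m : Bool) (k e1 e2 h x y : ℕ) : Bool :=
  bif Nat.beq x 0 || Nat.beq y 0 then false
  else bif Nat.ble x 3 && Nat.ble y 3 then bk m k h (3 * (x - 1) + (y - 1))
  else bif Nat.ble y 2 then rb e1 y (u1 m k x)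
  else bif Nat.ble x 2 then rb e2 x (u2 m k y)
  else iq m k x y

def j1 (m : Bool) (k k' : ℕ) : ℕ := bif m then (k + 4 * k') % 5 else (k' + 4 * k) % 5
def j2 (k k' : ℕ) : ℕ := (3 * k + 3 * k') % 5
def imv (m : Bool) (k k' y : ℕ) : ℕ :=
  bif m then dig 990 5 ((4 * k' + k + 4 * y) % 5) else dig 2230 5 ((k' + 4 * k + 4 * y) % 5)
def rotd (d : ℕ) : ℕ := bif Nat.beq d 0 then 0 else bif Nat.beq d 1 then 4 else d - 1

/-- the move of the guard at `(x, y)` -/
def mv (m : Bool) (k k' e1 f1 e2 f2 b x y : ℕ) : ℕ :=
  bif Nat.ble x 3 && Nat.ble y 3 then dig b 5 (3 * (x - 1) + (y - 1))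
  else bif Nat.ble y 2 then rm m (j1 m k k') e1 f1 y (u1 m k x)
  else bif Nat.ble x 2 then rotd (rm m (j2 k k') e2 f2 x (u2 m k y))
  else imv m k k' y

def opp (d : ℕ) : ℕ := bif Nat.beq d 0 then 0 else (d + 1) % 4 + 1
def sx (d x : ℕ) : ℕ := bif Nat.beq d 1 then x + 1 else bif Nat.beq d 3 then x - 1 else x
def sy (d y : ℕ) : ℕ := bif Nat.beq d 2 then y + 1 else bif Nat.beq d 4 then y - 1 else y

/-- the local condition at `(x, y)` -/
def lc (m : Bool) (k k' e1 f1 e2 f2 h h' b b' x y : ℕ) : Bool :=
  bif Q m k e1 e2 h x y then
    (fun d => Q (!m) k' f1 f2 h' (sx d x) (sy d y) &&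
      Nat.beq (mv (!m) k' k f1 e1 f2 e2 b' (sx d x) (sy d y)) (opp d) && Nat.ble d 4)
      (mv m k k' e1 f1 e2 f2 b x y)
  else true

/-- bounded quantifier over `a, a+1, ..., a+n-1` -/
def allN (a : ℕ) (f : ℕ → Bool) : ℕ → Bool
  | 0 => true
  | n + 1 => f (a + n) && allN a f n

theorem allN_iff (a : ℕ) (f : ℕ → Bool) (n : ℕ) :
    allN a f n = true ↔ ∀ i, a ≤ i → i < a + n → f i = true := by
  induction n with
  | zero => simp only [allN, true_iff]; intro i h1 h2; omega
  | succ n ih =>
    simp only [allN, Bool.and_eq_true, ih]
    constructor
    · rintro ⟨h1, h2⟩ i hi hi'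
      rcases Nat.lt_succ_iff_lt_or_eq.1 (show i < (a + n).succ by omega) with h | h
      · exact h2 i hi h
      · exact h ▸ h1
    · intro H
      exact ⟨H _ (by omega) (by omega), fun i hi hi' => H i hi (by omega)⟩

/-- kernel check of the local condition along the bottom side -/
def chkRow (m : Bool) (k : ℕ) : Bool :=
  allN 0 (fun k' => allN 0 (fun e => allN 0 (fun f =>
    bif vl m (j1 m k k') e f then
      allN 5 (fun x => allN 1 (fun y => lc m k k' e f 0 0 0 0 0 0 x y) 9) 5
    else true) 5) 5) 5

/-- kernel check of the local condition along the left side -/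
def chkCol (m : Bool) (k : ℕ) : Bool :=
  allN 0 (fun k' => allN 0 (fun e => allN 0 (fun f =>
    bif vl m (j2 k k') e f then
      allN 1 (fun x => allN 5 (fun y => lc m k k' 0 0 e f 0 0 0 0 x y) 5) 9
    else true) 5) 5) 5

end Pool.Agent.H511R3.EDom
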