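import Pool.Agent.H511R3.EDomGlob

set_option autoImplicit false

namespace Pool.Agent.H511R3.EDom

def d0 : St := ⟨false, 0, 0, 0⟩

def trOK (M : ℕ) (σ τ : St) (b c : ℕ) : Bool :=
  (bif σ.m then !τ.m else τ.m) && Nat.blt σ.k 5 && Nat.blt τ.k 5 &&
  allN 0 (fun s => chkQ σ.m (kf σ.m M σ.k s) (kf τ.m M τ.k s) (EE σ.e s) (EE τ.e s)
    (EE σ.e (s + 3)) (EE τ.e (s + 3)) (HH σ.h s) (HH τ.h s) (BB b s) (BB c s)) 4

def covOK (M : ℕ) (sts : List St) (ts : List (ℕ × ℕ × ℕ)) : Bool :=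
  allN 0 (fun s => allN 1 (fun x => allN 1 (fun y =>
    ts.any (fun t => QF M (sts.getD t.1 d0) s x y)) 8) 8) 4

def stOK (M : ℕ) (sts : List St) (trs : List (List (ℕ × ℕ × ℕ))) (i : ℕ) : Bool :=
  (trs.getD i []).all (fun t => Nat.blt t.1 sts.length &&
    trOK M (sts.getD i d0) (sts.getD t.1 d0) t.2.1 t.2.2) && covOK M sts (trs.getD i [])

theorem QF_mod4 (N : ℕ) {σ : St} (hk : σ.k < 5) (s x y : ℕ) :
    QF N σ s x y = QF N σ (s % 4) x y := by
  induction s using Nat.strong_induction_on with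
  | _ s ih =>
    by_cases h : s < 4
    · rw [Nat.mod_eq_of_lt h]
    · obtain ⟨t, rfl⟩ : ∃ t, s = t + 4 := ⟨s - 4, by omega⟩
      rw [QF_add N hk, ih t (by omega), Nat.add_mod_right]

theorem MF_mod4 (N : ℕ) {σ τ : St} (hk : σ.k < 5) (hk' : τ.k < 5) (b s x y : ℕ) :
    MF N σ τ b s x y = MF N σ τ b (s % 4) x y := by
  induction s using Nat.strong_induction_on with
  | _ s ih =>
    by_cases h : s < 4
    · rw [Nat.mod_eq_of_lt h]
    · obtain ⟨t, rfl⟩ : ∃ t, s = t + 4 := ⟨s - 4, by omega⟩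
      rw [MF_add N hk hk', ih t (by omega), Nat.add_mod_right]

theorem QF_N (N : ℕ) (σ : St) (s x y : ℕ) : QF (N % 5) σ s x y = QF N σ s x y := by
  unfold QF; rw [kf_mod]

theorem Tr_of_trOK {N : ℕ} {σ τ : St} {b c : ℕ} (H : trOK (N % 5) σ τ b c = true) :
    Tr N σ τ b c := by
  unfold trOK at H
  simp only [Bool.and_eq_true, Nat.blt_eq] at H
  obtain ⟨⟨⟨hm, hk⟩, hk'⟩, H⟩ := H
  rw [allN_iff] at H
  have hmm : τ.m = !σ.m := by
    cases h1 : σ.m <;> cases h2 : τ.m <;> simp_all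
  have key : ∀ s, s < 4 → GQ σ.m (kf σ.m N σ.k s) (kf τ.m N τ.k s) (EE σ.e s) (EE τ.e s)
      (EE σ.e (s + 3)) (EE τ.e (s + 3)) (HH σ.h s) (HH τ.h s) (BB b s) (BB c s) ∧
      GQ τ.m (kf τ.m N τ.k s) (kf σ.m N σ.k s) (EE τ.e s) (EE σ.e s)
      (EE τ.e (s + 3)) (EE σ.e (s + 3)) (HH τ.h s) (HH σ.h s) (BB c s) (BB b s) := by
    intro s hs
    have h1 := GQ_of_chkQ (H s (by omega) (by omega))
    rw [kf_mod, kf_mod] at h1
    rw [hmm] at h1 ⊢
    exact h1
  refine ⟨hmm, hk, hk', ?_, ?_⟩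
  · intro s x y hx hy hq
    have hs4 : s % 4 < 4 := Nat.mod_lt _ (by norm_num)
    rw [MF_mod4 N hk hk' b s]
    rw [QF_mod4 N hk s] at hq
    rw [QF_mod4 N hk' s, MF_mod4 N hk' hk c s]
    have h1 := (key (s % 4) hs4).1 x y hx hy
    have h2 := lc_spec h1 hq
    simp only at h2
    rw [← hmm] at h2
    exact h2
  · intro s x y hx hy hq
    have hs4 : s % 4 < 4 := Nat.mod_lt _ (by norm_num)
    rw [MF_mod4 N hk' hk c s]
    rw [QF_mod4 N hk' s] at hq
    rw [QF_mod4 N hk s, MF_mod4 N hk hk' b s]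
    have h1 := (key (s % 4) hs4).2 x y hx hy
    have h2 := lc_spec h1 hq
    simp only at h2
    have h3 : (!τ.m) = σ.m := by rw [hmm, Bool.not_not]
    rw [h3] at h2
    exact h2

def red (x : ℕ) : ℕ := if x ≤ 8 then x else 4 + (x - 4) % 5

theorem red_le (x : ℕ) (hx : 1 ≤ x) : 1 ≤ red x ∧ red x < 9 := by
  unfold red; split_ifs <;> omega

theorem red_add {x : ℕ} (hx : 4 ≤ x) : red (x + 5) = red x := by
  unfold red; split_ifs <;> omega

theorem Q_redx (m : Bool) (k e1 e2 h x y : ℕ) : Q m k e1 e2 h x y = Q m k e1 e2 h (red x) y := by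
  induction x using Nat.strong_induction_on with
  | _ x ih =>
    by_cases h8 : x ≤ 8
    · unfold red; rw [if_pos h8]
    · obtain ⟨z, rfl⟩ : ∃ z, x = z + 5 := ⟨x - 5, by omega⟩
      rw [Q_addx _ _ _ _ _ _ (by omega), ih z (by omega), red_add (by omega)]

theorem Q_redy (m : Bool) (k e1 e2 h x y : ℕ) : Q m k e1 e2 h x y = Q m k e1 e2 h x (red y) := by
  induction y using Nat.strong_induction_on with
  | _ y ih =>
    by_cases h8 : y ≤ 8
    · unfold red; rw [if_pos h8]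
    · obtain ⟨z, rfl⟩ : ∃ z, y = z + 5 := ⟨y - 5, by omega⟩
      rw [Q_addy _ _ _ _ _ _ (by omega), ih z (by omega), red_add (by omega)]

/-- what is needed from the finite data, for one residue class of `N` -/
def Closed (N : ℕ) (sts : List St) : Prop :=
  ∀ i, i < sts.length → ∀ s x y : ℕ, 1 ≤ x → 1 ≤ y → ∃ j, j < sts.length ∧ ∃ b c : ℕ,
    Tr N (sts.getD i d0) (sts.getD j d0) b c ∧ QF N (sts.getD j d0) s x y = true

theorem closed_of_stOK {N : ℕ} {sts : List St} {trs : List (List (ℕ × ℕ × ℕ))}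
    (H : ∀ i, i < sts.length → stOK (N % 5) sts trs i = true) : Closed N sts := by
  intro i hi s x y hx hy
  have h := H i hi
  unfold stOK covOK at h
  simp only [Bool.and_eq_true, List.all_eq_true, Nat.blt_eq] at h
  obtain ⟨h1, h2⟩ := h
  rw [allN_iff] at h2
  have hs4 : s % 4 < 4 := Nat.mod_lt _ (by norm_num)
  have h3 := h2 (s % 4) (by omega) (by omega)
  rw [allN_iff] at h3
  have hrx := red_le x hx
  have hry := red_le y hy
  have h4 := h3 (red x) (by omega) (by omega)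
  rw [allN_iff] at h4
  have h5 := h4 (red y) (by omega) (by omega)
  rw [List.any_eq_true] at h5
  obtain ⟨t, ht, hq⟩ := h5
  obtain ⟨g1, g2⟩ := h1 t ht
  have hTr := Tr_of_trOK g2
  refine ⟨t.1, g1, t.2.1, t.2.2, hTr, ?_⟩
  rw [QF_mod4 N hTr.hk', ← QF_N]
  unfold QF at hq ⊢
  rw [Q_redx, Q_redy]
  exact hq

end Pool.Agent.H511R3.EDom
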