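import Pool.Agent.H511R3.EDomQuad

set_option autoImplicit false

namespace Pool.Agent.H511R3.EDom

/-- phase in the next frame -/
def pl (m : Bool) (N k : ℕ) : ℕ := ((bif m then 2 else 3) * (k + 4 * N)) % 5

/-- phases in all frames -/
def kf (m : Bool) (N k : ℕ) : ℕ → ℕ
  | 0 => k
  | s + 1 => pl m N (kf m N k s)

theorem pl_lt (m : Bool) (N k : ℕ) : pl m N k < 5 := Nat.mod_lt _ (by norm_num)

theorem kf_lt (m : Bool) (N : ℕ) {k : ℕ} (hk : k < 5) (s : ℕ) : kf m N k s < 5 := by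
  cases s with
  | zero => exact hk
  | succ s => exact pl_lt _ _ _

theorem pl_four (m : Bool) (N : ℕ) {k : ℕ} (hk : k < 5) :
    pl m N (pl m N (pl m N (pl m N k))) = k := by
  unfold pl
  cases m <;> simp only [cond_true, cond_false] <;> omega

theorem kf_four (m : Bool) (N : ℕ) {k : ℕ} (hk : k < 5) (s : ℕ) :
    kf m N k (s + 4) = kf m N k s := pl_four m N (kf_lt m N hk s)

theorem pl_mod (m : Bool) (N k : ℕ) : pl m (N % 5) k = pl m N k := by
  unfold pl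
  cases m <;> simp only [cond_true, cond_false] <;> omega

theorem kf_mod (m : Bool) (N k s : ℕ) : kf m (N % 5) k s = kf m N k s := by
  induction s with
  | zero => rfl
  | succ s ih => simp only [kf, ih, pl_mod]

/-- global state -/
structure St where
  m : Bool
  k : ℕ
  e : ℕ
  h : ℕ

def EE (e s : ℕ) : ℕ := dig e 5 (s % 4)
def HH (h s : ℕ) : ℕ := dig h 3 (s % 4)
def BB (b s : ℕ) : ℕ := dig b 1953125 (s % 4)

def QF (N : ℕ) (σ : St) (s x y : ℕ) : Bool :=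
  Q σ.m (kf σ.m N σ.k s) (EE σ.e s) (EE σ.e (s + 3)) (HH σ.h s) x y

def MF (N : ℕ) (σ τ : St) (b s x y : ℕ) : ℕ :=
  mv σ.m (kf σ.m N σ.k s) (kf τ.m N τ.k s) (EE σ.e s) (EE τ.e s) (EE σ.e (s + 3)) (EE τ.e (s + 3))
    (BB b s) x y

def LF (N : ℕ) (σ τ : St) (b c : ℕ) : Prop :=
  ∀ s x y : ℕ, 1 ≤ x → 1 ≤ y → QF N σ s x y = true →
    QF N τ s (sx (MF N σ τ b s x y) x) (sy (MF N σ τ b s x y) y) = true ∧
    MF N τ σ c s (sx (MF N σ τ b s x y) x) (sy (MF N σ τ b s x y) y) = opp (MF N σ τ b s x y) ∧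
    MF N σ τ b s x y ≤ 4

structure Tr (N : ℕ) (σ τ : St) (b c : ℕ) : Prop where
  hm : τ.m = !σ.m
  hk : σ.k < 5
  hk' : τ.k < 5
  fwd : LF N σ τ b c
  bwd : LF N τ σ c b

theorem Tr.symm {N : ℕ} {σ τ : St} {b c : ℕ} (H : Tr N σ τ b c) : Tr N τ σ c b :=
  ⟨by rw [H.hm, Bool.not_not], H.hk', H.hk, H.bwd, H.fwd⟩

def rt (N : ℕ) (p : ℕ × ℕ) : ℕ × ℕ := (p.2, N - p.1)

def stp (d : ℕ) (p : ℕ × ℕ) : ℕ × ℕ := (sx d p.1, sy d p.2)

def Gr (N : ℕ) (p : ℕ × ℕ) : Prop := 1 ≤ p.1 ∧ p.1 + 1 ≤ N ∧ 1 ≤ p.2 ∧ p.2 + 1 ≤ N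

def safe (N : ℕ) (p : ℕ × ℕ) : Prop := 1 ≤ p.1 ∧ 1 ≤ p.2 ∧ p.1 + 4 ≤ N ∧ p.2 + 4 ≤ N

def half (N : ℕ) (p : ℕ × ℕ) : Prop := 2 * p.1 ≤ N ∧ 2 * p.2 ≤ N

def fr (N s : ℕ) (p : ℕ × ℕ) : ℕ × ℕ := (rt N)^[s] p

theorem fr_zero (N : ℕ) (p : ℕ × ℕ) : fr N 0 p = p := rfl

theorem fr_succ (N s : ℕ) (p : ℕ × ℕ) : fr N (s + 1) p = rt N (fr N s p) :=
  Function.iterate_succ_apply' _ _ _

theorem fr_succ' (N s : ℕ) (p : ℕ × ℕ) : fr N (s + 1) p = fr N s (rt N p) :=
  Function.iterate_succ_apply _ _ _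

theorem fr_add (N s t : ℕ) (p : ℕ × ℕ) : fr N (s + t) p = fr N s (fr N t p) :=
  Function.iterate_add_apply _ _ _ _

theorem rt_gr {N : ℕ} {p : ℕ × ℕ} (h : Gr N p) : Gr N (rt N p) := by
  unfold Gr rt at *; simp only; omega

theorem fr_gr {N : ℕ} {p : ℕ × ℕ} (h : Gr N p) (s : ℕ) : Gr N (fr N s p) := by
  induction s with
  | zero => exact h
  | succ s ih => rw [fr_succ]; exact rt_gr ih

theorem rt_four {N : ℕ} {p : ℕ × ℕ} (h : Gr N p) : rt N (rt N (rt N (rt N p))) = p := by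
  obtain ⟨x, y⟩ := p
  unfold Gr rt at *
  simp only at *
  ext <;> simp only <;> omega

theorem fr_four {N : ℕ} {p : ℕ × ℕ} (h : Gr N p) (s : ℕ) : fr N (s + 4) p = fr N s p := by
  rw [fr_add]
  congr 1
  exact rt_four h

theorem fr_mul {N : ℕ} {p : ℕ × ℕ} (h : Gr N p) (s t : ℕ) : fr N (s + 4 * t) p = fr N s p := by
  induction t with
  | zero => rfl
  | succ t ih => rw [← ih]; exact fr_four h _

theorem fr_three {N : ℕ} {p : ℕ × ℕ} (h : Gr N p) (s : ℕ) : fr N (3 * s) (fr N s p) = p := by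
  rw [← fr_add]
  have := fr_mul h 0 s
  rw [show 3 * s + s = 0 + 4 * s by ring, this]; rfl

theorem fr_three' {N : ℕ} {p : ℕ × ℕ} (h : Gr N p) (s : ℕ) : fr N s (fr N (3 * s) p) = p := by
  rw [← fr_add]
  have := fr_mul h 0 s
  rw [show s + 3 * s = 0 + 4 * s by ring, this]; rfl

/-! ### invariance under the rotation -/

theorem u_rot (m : Bool) {N k x : ℕ} (hx : x ≤ N) : u2 m (pl m N k) (N - x) = u1 m k x := by
  unfold u2 u1 pl
  cases m <;> simp only [cond_true, cond_false] <;> omega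

theorem iq_rot (m : Bool) {N k x : ℕ} (y : ℕ) (hx : x ≤ N) :
    iq m (pl m N k) y (N - x) = iq m k x y := by
  unfold iq pl
  rw [Bool.eq_iff_iff]
  cases m <;> simp only [cond_true, cond_false, Nat.beq_eq] <;> omega

theorem j_rot (m : Bool) (N k k' : ℕ) : j2 (pl m N k) (pl (!m) N k') = j1 m k k' := by
  unfold j1 j2 pl
  cases m <;> simp only [cond_true, cond_false, Bool.not_true, Bool.not_false] <;> omega

theorem imv_rot (m : Bool) {N k k' x y : ℕ} (hx : x ≤ N) (hq : iq m k x y = true) :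
    imv m (pl m N k) (pl (!m) N k') (N - x) = rotd (imv m k k' y) := by
  unfold iq at hq
  rw [Nat.beq_eq] at hq
  unfold imv pl
  cases m
  · simp only [cond_false, cond_true, Bool.not_false] at hq ⊢
    obtain ⟨d, hd⟩ : ∃ d, d = (k' + 4 * k + 4 * y) % 5 := ⟨_, rfl⟩
    have h1 : (2 * (k' + 4 * N) % 5 + 4 * (3 * (k + 4 * N) % 5) + 4 * (N - x)) % 5 = (2 * d) % 5 := by
      omega
    rw [← hd, h1]
    have hd5 : d < 5 := by omega
    clear h1 hd hq
    interval_cases d <;> decide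
  · simp only [cond_false, cond_true, Bool.not_true] at hq ⊢
    obtain ⟨d, hd⟩ : ∃ d, d = (4 * k' + k + 4 * y) % 5 := ⟨_, rfl⟩
    have h1 : (4 * (3 * (k' + 4 * N) % 5) + 2 * (k + 4 * N) % 5 + 4 * (N - x)) % 5 = (3 * d) % 5 := by
      omega
    rw [← hd, h1]
    have hd5 : d < 5 := by omega
    clear h1 hd hq
    interval_cases d <;> decide

theorem Q_rot (m : Bool) {N k x y : ℕ} (e1 e2 e3 h h' : ℕ) (hx : 4 ≤ x) (hxN : x + 4 ≤ N)
    (hy : 1 ≤ y) : Q m (pl m N k) e3 e1 h' y (N - x) = Q m k e1 e2 h x y := by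
  rw [Q_eq, Q_eq, u_rot m (by omega), iq_rot m y (by omega)]
  have a1 : ¬ (N - x ≤ 3) := by omega
  have a2 : ¬ (N - x ≤ 2) := by omega
  have a3 : ¬ (N - x = 0) := by omega
  have a4 : ¬ (x ≤ 3) := by omega
  have a5 : ¬ (x ≤ 2) := by omega
  have a6 : ¬ (x = 0) := by omega
  have a7 : ¬ (y = 0) := by omega
  simp only [a1, a2, a3, a4, a5, a6, a7, and_false, false_and, or_false, if_false]

theorem mv_rot (m : Bool) {N k k' x y : ℕ} (e1 f1 e2 f2 e3 f3 b b' h : ℕ) (hx : 4 ≤ x)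
    (hxN : x + 4 ≤ N) (hy : 1 ≤ y) (hq : Q m k e1 e2 h x y = true) :
    mv m (pl m N k) (pl (!m) N k') e3 f3 e1 f1 b' y (N - x) =
      rotd (mv m k k' e1 f1 e2 f2 b x y) := by
  rw [Q_eq] at hq
  rw [mv_eq, mv_eq, u_rot m (by omega), j_rot]
  have a1 : ¬ (N - x ≤ 3) := by omega
  have a2 : ¬ (N - x ≤ 2) := by omega
  have a4 : ¬ (x ≤ 3) := by omega
  have a5 : ¬ (x ≤ 2) := by omega
  have a6 : ¬ (x = 0) := by omega
  have a7 : ¬ (y = 0) := by omega
  simp only [a1, a2, a4, a5, a6, a7, and_false, false_and, or_false, if_false] at hq ⊢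
  by_cases h2 : y ≤ 2
  · simp only [h2, if_true]
  · simp only [h2, if_false] at hq ⊢
    exact imv_rot m (by omega) hq

theorem stp_rot {N d : ℕ} {p : ℕ × ℕ} (hd : d ≤ 4) (h1 : 1 ≤ p.1) (h2 : p.1 + 1 ≤ N) :
    rt N (stp d p) = stp (rotd d) (rt N p) := by
  obtain ⟨x, y⟩ := p
  simp only at h1 h2
  have r0 : rotd 0 = 0 := rfl
  have r1 : rotd 1 = 4 := rfl
  have r2 : rotd 2 = 1 := rfl
  have r3 : rotd 3 = 2 := rfl
  have r4 : rotd 4 = 3 := rfl
  unfold rt stp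
  simp only [sx_eq, sy_eq]
  interval_cases d
  · simp [r0]
  · simp [r1]; omega
  · simp [r2]
  · simp [r3]; omega
  · simp [r4]

theorem EE_add (e s : ℕ) : EE e (s + 4) = EE e s := by
  unfold EE; rw [Nat.add_mod_right]

theorem HH_add (e s : ℕ) : HH e (s + 4) = HH e s := by
  unfold HH; rw [Nat.add_mod_right]

theorem BB_add (e s : ℕ) : BB e (s + 4) = BB e s := by
  unfold BB; rw [Nat.add_mod_right]

theorem QF_add (N : ℕ) {σ : St} (hk : σ.k < 5) (s x y : ℕ) :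
    QF N σ (s + 4) x y = QF N σ s x y := by
  unfold QF
  rw [kf_four _ _ hk, EE_add, HH_add, show s + 4 + 3 = s + 3 + 4 by ring, EE_add]

theorem MF_add (N : ℕ) {σ τ : St} (hk : σ.k < 5) (hk' : τ.k < 5) (b s x y : ℕ) :
    MF N σ τ b (s + 4) x y = MF N σ τ b s x y := by
  unfold MF
  rw [kf_four _ _ hk, kf_four _ _ hk', EE_add, EE_add, BB_add,
    show s + 4 + 3 = s + 3 + 4 by ring, EE_add, EE_add]

theorem QF_rot (N : ℕ) (σ : St) {s x y : ℕ} (hx : 4 ≤ x) (hxN : x + 4 ≤ N) (hy : 1 ≤ y) :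
    QF N σ (s + 1) y (N - x) = QF N σ s x y := by
  unfold QF
  rw [show s + 1 + 3 = s + 4 by ring, EE_add]
  exact Q_rot σ.m _ _ _ _ _ hx hxN hy

theorem MF_rot (N : ℕ) {σ τ : St} (hm : τ.m = !σ.m) {b s x y : ℕ} (hx : 4 ≤ x)
    (hxN : x + 4 ≤ N) (hy : 1 ≤ y) (hq : QF N σ s x y = true) :
    MF N σ τ b (s + 1) y (N - x) = rotd (MF N σ τ b s x y) := by
  unfold QF at hq
  unfold MF
  rw [show s + 1 + 3 = s + 4 by ring, EE_add, EE_add, hm]
  exact mv_rot σ.m _ _ _ _ _ _ _ _ _ hx hxN hy hq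

/-- comparison of frames -/
theorem chain {α : Type} {N : ℕ} {v : ℕ × ℕ} (hv : Gr N v) (Φ : ℕ → α)
    (hstep : ∀ s, safe N (fr N s v) → safe N (fr N (s + 1) v) → Φ (s + 1) = Φ s)
    (hper : ∀ s, safe N (fr N s v) → Φ (s + 4) = Φ s) {s t : ℕ} (hs : safe N (fr N s v))
    (ht : safe N (fr N t v)) :
    Φ s = Φ t := by
  have hper' : ∀ s i, safe N (fr N s v) → Φ (s + 4 * i) = Φ s := by
    intro s i hsf
    induction i with
    | zero => rfl
    | succ i ih =>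
      rw [← ih]
      have h1 : safe N (fr N (s + 4 * i) v) := by rw [fr_mul hv]; exact hsf
      exact hper _ h1
  have mid : ∀ s, safe N (fr N s v) → safe N (fr N (s + 2) v) → safe N (fr N (s + 1) v) := by
    intro s h0 h2
    have hg := fr_gr hv s
    rw [show s + 2 = (s + 1) + 1 by ring, fr_succ, fr_succ] at h2
    rw [fr_succ]
    unfold safe rt Gr at *
    simp only at *
    omega
  have base : ∀ s d, d < 4 → safe N (fr N s v) → safe N (fr N (s + d) v) → Φ s = Φ (s + d) := by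
    intro s d hd h0 h1
    interval_cases d
    · rfl
    · exact (hstep s h0 h1).symm
    · have hm := mid s h0 h1
      rw [← hstep s h0 hm]
      exact (hstep (s + 1) hm h1).symm
    · have h4 : safe N (fr N (s + 3 + 1) v) := by
        rw [show s + 3 + 1 = s + 4 by ring, fr_four hv]; exact h0
      have := hstep (s + 3) h1 h4
      rw [← this]
      exact (hper s h0).symm
  obtain ⟨d, hd⟩ : ∃ d, d = (t + 3 * s) % 4 := ⟨_, rfl⟩
  have hd4 : d < 4 := by omega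
  obtain ⟨i, j, hij⟩ : ∃ i j, s + d + 4 * i = t + 4 * j := by
    refine ⟨(t + 3 * s) / 4 , s, ?_⟩
    omega
  have e2 : fr N (s + d) v = fr N t v := by
    rw [← fr_mul hv (s + d) i, hij, fr_mul hv]
  have e3 : safe N (fr N (s + d) v) := by rw [e2]; exact ht
  have e1 : Φ (s + d) = Φ t := by
    rw [← hper' (s + d) i e3, hij, hper' t j ht]
  rw [← e1]
  exact base s d hd4 hs e3

/-- the guard set in global coordinates -/
def G (N : ℕ) (σ : St) (v : ℕ × ℕ) : Prop :=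
  ∃ s, safe N (fr N s v) ∧ QF N σ s (fr N s v).1 (fr N s v).2 = true

theorem safe_shift {N : ℕ} {v : ℕ × ℕ} (hv : Gr N v) {s : ℕ} (h0 : safe N (fr N s v))
    (h1 : safe N (fr N (s + 1) v)) : 4 ≤ (fr N s v).1 ∧ (fr N s v).1 + 4 ≤ N ∧
      1 ≤ (fr N s v).2 := by
  have hg := fr_gr hv s
  rw [fr_succ] at h1
  unfold safe rt Gr at *
  simp only at *
  omega

theorem G_iff {N : ℕ} {σ : St} (hk : σ.k < 5) {v : ℕ × ℕ} (hv : Gr N v) {s : ℕ}
    (hs : safe N (fr N s v)) : G N σ v ↔ QF N σ s (fr N s v).1 (fr N s v).2 = true := by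
  have key : ∀ s t, safe N (fr N s v) → safe N (fr N t v) →
      QF N σ s (fr N s v).1 (fr N s v).2 = QF N σ t (fr N t v).1 (fr N t v).2 := by
    intro s t hs ht
    refine chain hv (fun s => QF N σ s (fr N s v).1 (fr N s v).2) ?_ ?_ hs ht
    · intro s h0 h1
      obtain ⟨a1, a2, a3⟩ := safe_shift hv h0 h1
      simp only [fr_succ, rt]
      exact QF_rot N σ a1 a2 a3
    · intro s _
      simp only [fr_four hv, QF_add N hk]
  constructor
  · rintro ⟨t, ht, h⟩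
    rw [key s t hs ht]; exact h
  · intro h
    exact ⟨s, hs, h⟩

/-- target of the guard `v`, computed in frame `s` -/
def TG (N : ℕ) (σ τ : St) (b s : ℕ) (v : ℕ × ℕ) : ℕ × ℕ :=
  fr N (3 * s) (stp (MF N σ τ b s (fr N s v).1 (fr N s v).2) (fr N s v))

theorem Gr_of_QF {N : ℕ} {τ : St} {s x y : ℕ} (h : QF N τ s x y = true) : 1 ≤ x ∧ 1 ≤ y := by
  unfold QF at h
  rw [Q_eq] at h
  by_contra hcon
  have : x = 0 ∨ y = 0 := by omega
  rw [if_pos this] at h
  exact absurd h (by decide)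

theorem sx_le {d x : ℕ} : sx d x ≤ x + 1 := by rw [sx_eq]; split_ifs <;> omega
theorem sy_le {d x : ℕ} : sy d x ≤ x + 1 := by rw [sy_eq]; split_ifs <;> omega

theorem target_gr {N : ℕ} {σ τ : St} {b c : ℕ} (H : Tr N σ τ b c) {v : ℕ × ℕ} (_hv : Gr N v)
    {s : ℕ} (hs : safe N (fr N s v)) (hq : QF N σ s (fr N s v).1 (fr N s v).2 = true) :
    Gr N (stp (MF N σ τ b s (fr N s v).1 (fr N s v).2) (fr N s v)) := by
  obtain ⟨h1, h2, h3⟩ := H.fwd s _ _ hs.1 hs.2.1 hq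
  have h4 := Gr_of_QF h1
  have a1 := @sx_le (MF N σ τ b s (fr N s v).1 (fr N s v).2) (fr N s v).1
  have a2 := @sy_le (MF N σ τ b s (fr N s v).1 (fr N s v).2) (fr N s v).2
  unfold safe at hs
  unfold Gr stp
  simp only
  omega

theorem TG_eq {N : ℕ} {σ τ : St} {b c : ℕ} (H : Tr N σ τ b c) {v : ℕ × ℕ} (hv : Gr N v)
    (hG : G N σ v) {s t : ℕ} (hs : safe N (fr N s v)) (ht : safe N (fr N t v)) :
    TG N σ τ b s v = TG N σ τ b t v := by
  refine chain hv (fun s => TG N σ τ b s v) ?_ ?_ hs ht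
  · intro s h0 h1
    obtain ⟨a1, a2, a3⟩ := safe_shift hv h0 h1
    have hq := (G_iff H.hk hv h0).1 hG
    have hd := (H.fwd s _ _ h0.1 h0.2.1 hq).2.2
    have hg := target_gr H hv h0 hq
    have e1 : MF N σ τ b (s + 1) (fr N (s + 1) v).1 (fr N (s + 1) v).2 =
        rotd (MF N σ τ b s (fr N s v).1 (fr N s v).2) := by
      simp only [fr_succ, rt]
      exact MF_rot N H.hm a1 a2 a3 hq
    unfold TG
    rw [e1, fr_succ, ← stp_rot hd (by omega) (by omega)]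
    rw [show 3 * (s + 1) = 3 * s + 3 by ring]
    rw [fr_add, ← fr_succ', ← fr_add, show 3 * s + (3 + 1) = 3 * s + 4 by ring]
    exact fr_four hg _
  · intro s hsf
    have hq := (G_iff H.hk hv hsf).1 hG
    have hg := target_gr H hv hsf hq
    unfold TG
    rw [fr_four hv, MF_add N H.hk H.hk', show 3 * (s + 4) = 3 * s + 4 * 3 by ring, fr_mul hg]

/-- every cell is in the near half of some frame -/
theorem exists_half {N : ℕ} {v : ℕ × ℕ} (hv : Gr N v) : ∃ s, half N (fr N s v) := by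
  obtain ⟨x, y⟩ := v
  unfold Gr at hv
  simp only at hv
  by_cases h1 : 2 * x ≤ N <;> by_cases h2 : 2 * y ≤ N
  · exact ⟨0, by unfold half; simp only [fr_zero]; omega⟩
  · refine ⟨3, ?_⟩
    rw [show (3 : ℕ) = 0 + 1 + 1 + 1 by norm_num, fr_succ, fr_succ, fr_succ, fr_zero]
    unfold half rt; simp only; omega
  · refine ⟨1, ?_⟩
    rw [show (1 : ℕ) = 0 + 1 by norm_num, fr_succ, fr_zero]
    unfold half rt; simp only; omega
  · refine ⟨2, ?_⟩
    rw [show (2 : ℕ) = 0 + 1 + 1 by norm_num, fr_succ, fr_succ, fr_zero]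
    unfold half rt; simp only; omega

theorem safe_of_half {N : ℕ} (hN : 12 ≤ N) {p : ℕ × ℕ} (hg : Gr N p) (h : half N p) :
    safe N p := by
  unfold Gr half safe at *; omega

/-- near points: equal or adjacent in the square lattice -/
def near (p q : ℕ × ℕ) : Prop :=
  p = q ∨ (p.1 = q.1 ∧ (p.2 + 1 = q.2 ∨ q.2 + 1 = p.2)) ∨
    (p.2 = q.2 ∧ (p.1 + 1 = q.1 ∨ q.1 + 1 = p.1))

theorem near_rt {N : ℕ} {p q : ℕ × ℕ} (hp : Gr N p) (hq : Gr N q) (h : near p q) :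
    near (rt N p) (rt N q) := by
  obtain ⟨a, b⟩ := p
  obtain ⟨c, d⟩ := q
  unfold near rt Gr at *
  simp only [Prod.mk.injEq] at *
  omega

theorem near_fr {N : ℕ} {p q : ℕ × ℕ} (hp : Gr N p) (hq : Gr N q) (h : near p q) (s : ℕ) :
    near (fr N s p) (fr N s q) := by
  induction s with
  | zero => exact h
  | succ s ih => rw [fr_succ, fr_succ]; exact near_rt (fr_gr hp s) (fr_gr hq s) ih

theorem near_stp {d : ℕ} {p : ℕ × ℕ} (hd : d ≤ 4) (h1 : 1 ≤ p.1) (h2 : 1 ≤ p.2) :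
    near p (stp d p) := by
  obtain ⟨a, b⟩ := p
  unfold near stp
  simp only [sx_eq, sy_eq, Prod.mk.injEq] at *
  interval_cases d <;> simp <;> omega

theorem stp_opp {d : ℕ} {p : ℕ × ℕ} (hd : d ≤ 4) (h1 : 1 ≤ p.1) (h2 : 1 ≤ p.2) :
    stp (opp d) (stp d p) = p := by
  obtain ⟨a, b⟩ := p
  have r0 : opp 0 = 0 := rfl
  have r1 : opp 1 = 3 := rfl
  have r2 : opp 2 = 4 := rfl
  have r3 : opp 3 = 1 := rfl
  have r4 : opp 4 = 2 := rfl
  unfold stp
  simp only [sx_eq, sy_eq, Prod.mk.injEq] at *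
  interval_cases d
  · simp [r0]
  · simp [r1]
  · simp [r2]
  · simp [r3]; omega
  · simp [r4]; omega

/-- chosen frame -/
noncomputable def sel (N : ℕ) (v : ℕ × ℕ) : ℕ := by
  classical
  exact if h : ∃ s, half N (fr N s v) then h.choose else 0

theorem sel_half {N : ℕ} {v : ℕ × ℕ} (hv : Gr N v) : half N (fr N (sel N v) v) := by
  unfold sel
  rw [dif_pos (exists_half hv)]
  exact (exists_half hv).choose_spec

theorem sel_safe {N : ℕ} (hN : 12 ≤ N) {v : ℕ × ℕ} (hv : Gr N v) :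
    safe N (fr N (sel N v) v) := safe_of_half hN (fr_gr hv _) (sel_half hv)

/-- the global move map -/
noncomputable def fT (N : ℕ) (σ τ : St) (b : ℕ) (v : ℕ × ℕ) : ℕ × ℕ := TG N σ τ b (sel N v) v

theorem fT_spec {N : ℕ} (hN : 12 ≤ N) {σ τ : St} {b c : ℕ} (H : Tr N σ τ b c) {v : ℕ × ℕ}
    (hv : Gr N v) (hG : G N σ v) :
    Gr N (fT N σ τ b v) ∧ G N τ (fT N σ τ b v) ∧ near v (fT N σ τ b v) ∧
      fT N τ σ c (fT N σ τ b v) = v := by
  set s := sel N v with hs_def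
  have hhalf := sel_half hv
  have hs : safe N (fr N s v) := sel_safe hN hv
  rw [← hs_def] at hhalf
  have hq := (G_iff H.hk hv hs).1 hG
  obtain ⟨l1, l2, l3⟩ := H.fwd s _ _ hs.1 hs.2.1 hq
  have hg := target_gr H hv hs hq
  set d := MF N σ τ b s (fr N s v).1 (fr N s v).2 with hd
  set w := stp d (fr N s v) with hw
  have ht : fT N σ τ b v = fr N (3 * s) w := rfl
  have htg : Gr N (fT N σ τ b v) := by rw [ht]; exact fr_gr hg _
  have hst : fr N s (fT N σ τ b v) = w := by rw [ht]; exact fr_three' hg s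
  have hsafe : safe N (fr N s (fT N σ τ b v)) := by
    rw [hst]
    have a1 := @sx_le d (fr N s v).1
    have a2 := @sy_le d (fr N s v).2
    have a3 := Gr_of_QF l1
    unfold half at hhalf
    unfold safe
    rw [hw]
    unfold stp
    simp only
    omega
  have hGt : G N τ (fT N σ τ b v) := by
    rw [G_iff H.hk' htg hsafe, hst]
    exact l1
  refine ⟨htg, hGt, ?_, ?_⟩
  · have h1 : near (fr N s v) w := near_stp l3 hs.1 hs.2.1
    have h2 := near_fr (fr_gr hv s) hg h1 (3 * s)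
    rw [fr_three hv] at h2
    exact h2
  · have h1 : fT N τ σ c (fT N σ τ b v) = TG N τ σ c s (fT N σ τ b v) :=
      TG_eq H.symm htg hGt (sel_safe hN htg) hsafe
    rw [h1]
    unfold TG
    rw [hst]
    have h2 : MF N τ σ c s w.1 w.2 = opp d := l2
    rw [h2, hw, stp_opp l3 hs.1 hs.2.1, fr_three hv]

end Pool.Agent.H511R3.EDom
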