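import Pool.Agent.H511R3.EDomRC

set_option autoImplicit false

namespace Pool.Agent.H511R3.EDom

theorem cond_eq_ite' {α : Type} (b : Bool) (x y : α) : cond b x y = if b = true then x else y := by
  cases b <;> rfl

theorem Q_eq (m : Bool) (k e1 e2 h x y : ℕ) :
    Q m k e1 e2 h x y =
      if x = 0 ∨ y = 0 then false
      else if x ≤ 3 ∧ y ≤ 3 then bk m k h (3 * (x - 1) + (y - 1))
      else if y ≤ 2 then rb e1 y (u1 m k x)
      else if x ≤ 2 then rb e2 x (u2 m k y)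
      else iq m k x y := by
  unfold Q
  simp only [cond_eq_ite', Bool.or_eq_true, Bool.and_eq_true, Nat.beq_eq, Nat.ble_eq]

theorem mv_eq (m : Bool) (k k' e1 f1 e2 f2 b x y : ℕ) :
    mv m k k' e1 f1 e2 f2 b x y =
      if x ≤ 3 ∧ y ≤ 3 then dig b 5 (3 * (x - 1) + (y - 1))
      else if y ≤ 2 then rm m (j1 m k k') e1 f1 y (u1 m k x)
      else if x ≤ 2 then rotd (rm m (j2 k k') e2 f2 x (u2 m k y))
      else imv m k k' y := by
  unfold mv
  simp only [cond_eq_ite', Bool.and_eq_true, Nat.ble_eq]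

theorem sx_eq (d x : ℕ) : sx d x = if d = 1 then x + 1 else if d = 3 then x - 1 else x := by
  unfold sx
  simp only [cond_eq_ite', Nat.beq_eq]

theorem sy_eq (d y : ℕ) : sy d y = if d = 2 then y + 1 else if d = 4 then y - 1 else y := by
  unfold sy
  simp only [cond_eq_ite', Nat.beq_eq]

theorem opp_eq (d : ℕ) : opp d = if d = 0 then 0 else (d + 1) % 4 + 1 := by
  unfold opp
  simp only [cond_eq_ite', Nat.beq_eq]

theorem u1_add (m : Bool) (k x : ℕ) : u1 m k (x + 5) = u1 m k x := by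
  unfold u1; cases m <;> simp only [cond_true, cond_false] <;> omega

theorem u2_add (m : Bool) (k y : ℕ) : u2 m k (y + 5) = u2 m k y := by
  unfold u2; cases m <;> simp only [cond_true, cond_false] <;> omega

theorem iq_addx (m : Bool) (k x y : ℕ) : iq m k (x + 5) y = iq m k x y := by
  unfold iq; cases m <;> simp only [cond_true, cond_false] <;> congr 1 <;> omega

theorem iq_addy (m : Bool) (k x y : ℕ) : iq m k x (y + 5) = iq m k x y := by
  unfold iq; cases m <;> simp only [cond_true, cond_false] <;> congr 1 <;> omega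

theorem imv_addy (m : Bool) (k k' y : ℕ) : imv m k k' (y + 5) = imv m k k' y := by
  have h1 : (4 * k' + k + 4 * (y + 5)) % 5 = (4 * k' + k + 4 * y) % 5 := by omega
  have h2 : (k' + 4 * k + 4 * (y + 5)) % 5 = (k' + 4 * k + 4 * y) % 5 := by omega
  unfold imv; rw [h1, h2]

/-- periodicity in `x` -/
theorem Q_addx (m : Bool) (k e1 e2 h : ℕ) {x : ℕ} (y : ℕ) (hx : 4 ≤ x) :
    Q m k e1 e2 h (x + 5) y = Q m k e1 e2 h x y := by
  rw [Q_eq, Q_eq, u1_add, iq_addx]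
  have a1 : ¬ (x + 5 ≤ 3) := by omega
  have a2 : ¬ (x ≤ 3) := by omega
  have a3 : ¬ (x + 5 ≤ 2) := by omega
  have a4 : ¬ (x ≤ 2) := by omega
  have a5 : ¬ (x + 5 = 0) := by omega
  have a6 : ¬ (x = 0) := by omega
  simp only [a1, a2, a3, a4, a5, a6, false_and, false_or, if_false]

theorem Q_addy (m : Bool) (k e1 e2 h x : ℕ) {y : ℕ} (hy : 4 ≤ y) :
    Q m k e1 e2 h x (y + 5) = Q m k e1 e2 h x y := by
  rw [Q_eq, Q_eq, u2_add, iq_addy]
  have a1 : ¬ (y + 5 ≤ 3) := by omega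
  have a2 : ¬ (y ≤ 3) := by omega
  have a3 : ¬ (y + 5 ≤ 2) := by omega
  have a4 : ¬ (y ≤ 2) := by omega
  have a5 : ¬ (y + 5 = 0) := by omega
  have a6 : ¬ (y = 0) := by omega
  simp only [a1, a2, a3, a4, a5, a6, and_false, or_false, if_false]

theorem mv_addx (m : Bool) (k k' e1 f1 e2 f2 b : ℕ) {x : ℕ} (y : ℕ) (hx : 4 ≤ x) :
    mv m k k' e1 f1 e2 f2 b (x + 5) y = mv m k k' e1 f1 e2 f2 b x y := by
  rw [mv_eq, mv_eq, u1_add]
  have a1 : ¬ (x + 5 ≤ 3) := by omega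
  have a2 : ¬ (x ≤ 3) := by omega
  have a3 : ¬ (x + 5 ≤ 2) := by omega
  have a4 : ¬ (x ≤ 2) := by omega
  simp only [a1, a2, a3, a4, false_and, if_false]

theorem mv_addy (m : Bool) (k k' e1 f1 e2 f2 b x : ℕ) {y : ℕ} (hy : 4 ≤ y) :
    mv m k k' e1 f1 e2 f2 b x (y + 5) = mv m k k' e1 f1 e2 f2 b x y := by
  rw [mv_eq, mv_eq, u2_add, imv_addy]
  have a1 : ¬ (y + 5 ≤ 3) := by omega
  have a2 : ¬ (y ≤ 3) := by omega
  have a3 : ¬ (y + 5 ≤ 2) := by omega
  have a4 : ¬ (y ≤ 2) := by omega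
  simp only [a1, a2, a3, a4, and_false, if_false]

/-- independence of the other side -/
theorem Q_row (m : Bool) (k e1 e2 h : ℕ) {x : ℕ} (y : ℕ) (hx : 4 ≤ x) :
    Q m k e1 e2 h x y = Q m k e1 0 0 x y := by
  rw [Q_eq, Q_eq]
  have a2 : ¬ (x ≤ 3) := by omega
  have a4 : ¬ (x ≤ 2) := by omega
  simp only [a2, a4, false_and, if_false]

theorem Q_col (m : Bool) (k e1 e2 h x : ℕ) {y : ℕ} (hy : 4 ≤ y) :
    Q m k e1 e2 h x y = Q m k 0 e2 0 x y := by
  rw [Q_eq, Q_eq]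
  have a2 : ¬ (y ≤ 3) := by omega
  have a4 : ¬ (y ≤ 2) := by omega
  simp only [a2, a4, and_false, if_false]

theorem mv_row (m : Bool) (k k' e1 f1 e2 f2 b : ℕ) {x : ℕ} (y : ℕ) (hx : 4 ≤ x) :
    mv m k k' e1 f1 e2 f2 b x y = mv m k k' e1 f1 0 0 0 x y := by
  rw [mv_eq, mv_eq]
  have a2 : ¬ (x ≤ 3) := by omega
  have a4 : ¬ (x ≤ 2) := by omega
  simp only [a2, a4, false_and, if_false]

theorem mv_col (m : Bool) (k k' e1 f1 e2 f2 b x : ℕ) {y : ℕ} (hy : 4 ≤ y) :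
    mv m k k' e1 f1 e2 f2 b x y = mv m k k' 0 0 e2 f2 0 x y := by
  rw [mv_eq, mv_eq]
  have a2 : ¬ (y ≤ 3) := by omega
  have a4 : ¬ (y ≤ 2) := by omega
  simp only [a2, a4, and_false, if_false]

theorem sx_ge {d x a : ℕ} (hx : a + 1 ≤ x) : a ≤ sx d x := by
  rw [sx_eq]; split_ifs <;> omega

theorem sy_ge {d y a : ℕ} (hy : a + 1 ≤ y) : a ≤ sy d y := by
  rw [sy_eq]; split_ifs <;> omega

theorem sx_add {d x : ℕ} (hx : 1 ≤ x) : sx d (x + 5) = sx d x + 5 := by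
  rw [sx_eq, sx_eq]; split_ifs <;> omega

theorem sy_add {d y : ℕ} (hy : 1 ≤ y) : sy d (y + 5) = sy d y + 5 := by
  rw [sy_eq, sy_eq]; split_ifs <;> omega

theorem lc_addx (m : Bool) (k k' e1 f1 e2 f2 h h' b b' : ℕ) {x : ℕ} (y : ℕ) (hx : 5 ≤ x) :
    lc m k k' e1 f1 e2 f2 h h' b b' (x + 5) y = lc m k k' e1 f1 e2 f2 h h' b b' x y := by
  unfold lc
  rw [Q_addx _ _ _ _ _ _ (by omega : 4 ≤ x), mv_addx _ _ _ _ _ _ _ _ _ (by omega : 4 ≤ x)]
  simp only
  rw [sx_add (by omega : 1 ≤ x), Q_addx _ _ _ _ _ _ (sx_ge (by omega)),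
    mv_addx _ _ _ _ _ _ _ _ _ (sx_ge (by omega))]

theorem lc_addy (m : Bool) (k k' e1 f1 e2 f2 h h' b b' x : ℕ) {y : ℕ} (hy : 5 ≤ y) :
    lc m k k' e1 f1 e2 f2 h h' b b' x (y + 5) = lc m k k' e1 f1 e2 f2 h h' b b' x y := by
  unfold lc
  rw [Q_addy _ _ _ _ _ _ (by omega : 4 ≤ y), mv_addy _ _ _ _ _ _ _ _ _ (by omega : 4 ≤ y)]
  simp only
  rw [sy_add (by omega : 1 ≤ y), Q_addy _ _ _ _ _ _ (sy_ge (by omega)),
    mv_addy _ _ _ _ _ _ _ _ _ (sy_ge (by omega))]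

theorem lc_row (m : Bool) (k k' e1 f1 e2 f2 h h' b b' : ℕ) {x : ℕ} (y : ℕ) (hx : 5 ≤ x) :
    lc m k k' e1 f1 e2 f2 h h' b b' x y = lc m k k' e1 f1 0 0 0 0 0 0 x y := by
  unfold lc
  rw [Q_row _ _ _ _ _ _ (by omega : 4 ≤ x), mv_row _ _ _ _ _ _ _ _ _ (by omega : 4 ≤ x)]
  simp only
  rw [Q_row _ _ _ _ _ _ (sx_ge (by omega) : 4 ≤ sx _ _),
    mv_row _ _ _ _ _ _ _ _ _ (sx_ge (by omega) : 4 ≤ sx _ _)]

theorem lc_col (m : Bool) (k k' e1 f1 e2 f2 h h' b b' x : ℕ) {y : ℕ} (hy : 5 ≤ y) :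
    lc m k k' e1 f1 e2 f2 h h' b b' x y = lc m k k' 0 0 e2 f2 0 0 0 0 x y := by
  unfold lc
  rw [Q_col _ _ _ _ _ _ (by omega : 4 ≤ y), mv_col _ _ _ _ _ _ _ _ _ (by omega : 4 ≤ y)]
  simp only
  rw [Q_col _ _ _ _ _ _ (sy_ge (by omega) : 4 ≤ sy _ _),
    mv_col _ _ _ _ _ _ _ _ _ (sy_ge (by omega) : 4 ≤ sy _ _)]

theorem chkRow_all (m : Bool) (k : ℕ) (hk : k < 5) : chkRow m k = true := by
  cases m
  · match k, hk with
    | 0, _ => exact chkRow_false_0
    | 1, _ => exact chkRow_false_1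
    | 2, _ => exact chkRow_false_2
    | 3, _ => exact chkRow_false_3
    | 4, _ => exact chkRow_false_4
    | (n + 5), h => omega
  · match k, hk with
    | 0, _ => exact chkRow_true_0
    | 1, _ => exact chkRow_true_1
    | 2, _ => exact chkRow_true_2
    | 3, _ => exact chkRow_true_3
    | 4, _ => exact chkRow_true_4
    | (n + 5), h => omega

theorem chkCol_all (m : Bool) (k : ℕ) (hk : k < 5) : chkCol m k = true := by
  cases m
  · match k, hk with
    | 0, _ => exact chkCol_false_0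
    | 1, _ => exact chkCol_false_1
    | 2, _ => exact chkCol_false_2
    | 3, _ => exact chkCol_false_3
    | 4, _ => exact chkCol_false_4
    | (n + 5), h => omega
  · match k, hk with
    | 0, _ => exact chkCol_true_0
    | 1, _ => exact chkCol_true_1
    | 2, _ => exact chkCol_true_2
    | 3, _ => exact chkCol_true_3
    | 4, _ => exact chkCol_true_4
    | (n + 5), h => omega

theorem lcRow_small {m : Bool} {k k' e f : ℕ} (hk : k < 5) (hk' : k' < 5) (he : e < 5) (hf : f < 5)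
    (hv : vl m (j1 m k k') e f = true) {x y : ℕ} (hx : 5 ≤ x) (hx' : x < 10) (hy : 1 ≤ y)
    (hy' : y < 10) : lc m k k' e f 0 0 0 0 0 0 x y = true := by
  have H := chkRow_all m k hk
  unfold chkRow at H
  rw [allN_iff] at H
  have H1 := H k' (by omega) (by omega)
  rw [allN_iff] at H1
  have H2 := H1 e (by omega) (by omega)
  rw [allN_iff] at H2
  have H3 := H2 f (by omega) (by omega)
  rw [hv, cond_true, allN_iff] at H3
  have H4 := H3 x (by omega) (by omega)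
  rw [allN_iff] at H4
  exact H4 y (by omega) (by omega)

theorem lcCol_small {m : Bool} {k k' e f : ℕ} (hk : k < 5) (hk' : k' < 5) (he : e < 5) (hf : f < 5)
    (hv : vl m (j2 k k') e f = true) {x y : ℕ} (hx : 1 ≤ x) (hx' : x < 10) (hy : 5 ≤ y)
    (hy' : y < 10) : lc m k k' 0 0 e f 0 0 0 0 x y = true := by
  have H := chkCol_all m k hk
  unfold chkCol at H
  rw [allN_iff] at H
  have H1 := H k' (by omega) (by omega)
  rw [allN_iff] at H1
  have H2 := H1 e (by omega) (by omega)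
  rw [allN_iff] at H2
  have H3 := H2 f (by omega) (by omega)
  rw [hv, cond_true, allN_iff] at H3
  have H4 := H3 x (by omega) (by omega)
  rw [allN_iff] at H4
  exact H4 y (by omega) (by omega)

theorem lcRow_all {m : Bool} {k k' e f : ℕ} (hk : k < 5) (hk' : k' < 5) (he : e < 5) (hf : f < 5)
    (hv : vl m (j1 m k k') e f = true) (x y : ℕ) (hx : 5 ≤ x) (hy : 1 ≤ y) :
    lc m k k' e f 0 0 0 0 0 0 x y = true := by
  induction x using Nat.strong_induction_on generalizing y with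
  | _ x ihx =>
    by_cases h : x < 10
    · induction y using Nat.strong_induction_on with
      | _ y ihy =>
        by_cases h' : y < 10
        · exact lcRow_small hk hk' he hf hv hx h hy h'
        · obtain ⟨z, rfl⟩ : ∃ z, y = z + 5 := ⟨y - 5, by omega⟩
          rw [lc_addy _ _ _ _ _ _ _ _ _ _ _ _ (by omega)]
          exact ihy z (by omega) (by omega)
    · obtain ⟨z, rfl⟩ : ∃ z, x = z + 5 := ⟨x - 5, by omega⟩
      rw [lc_addx _ _ _ _ _ _ _ _ _ _ _ _ (by omega)]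
      exact ihx z (by omega) y (by omega) hy

theorem lcCol_all {m : Bool} {k k' e f : ℕ} (hk : k < 5) (hk' : k' < 5) (he : e < 5) (hf : f < 5)
    (hv : vl m (j2 k k') e f = true) (x y : ℕ) (hx : 1 ≤ x) (hy : 5 ≤ y) :
    lc m k k' 0 0 e f 0 0 0 0 x y = true := by
  induction y using Nat.strong_induction_on generalizing x with
  | _ y ihy =>
    by_cases h : y < 10
    · induction x using Nat.strong_induction_on with
      | _ x ihx =>
        by_cases h' : x < 10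
        · exact lcCol_small hk hk' he hf hv hx h' hy h
        · obtain ⟨z, rfl⟩ : ∃ z, x = z + 5 := ⟨x - 5, by omega⟩
          rw [lc_addx _ _ _ _ _ _ _ _ _ _ _ _ (by omega)]
          exact ihx z (by omega) (by omega)
    · obtain ⟨z, rfl⟩ : ∃ z, y = z + 5 := ⟨y - 5, by omega⟩
      rw [lc_addy _ _ _ _ _ _ _ _ _ _ _ _ (by omega)]
      exact ihy z (by omega) x hx (by omega)

/-- kernel check near the corner -/
def chkB (m : Bool) (k k' e1 f1 e2 f2 h h' b b' : ℕ) : Bool :=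
  allN 1 (fun x => allN 1 (fun y => lc m k k' e1 f1 e2 f2 h h' b b' x y) 4) 4

def bnd (k k' e1 f1 e2 f2 : ℕ) : Bool :=
  Nat.blt k 5 && Nat.blt k' 5 && Nat.blt e1 5 && Nat.blt f1 5 && Nat.blt e2 5 && Nat.blt f2 5

/-- full kernel check of one quadrant transition, both directions -/
def chkQ (m : Bool) (k k' e1 f1 e2 f2 h h' b b' : ℕ) : Bool :=
  bnd k k' e1 f1 e2 f2 && vl m (j1 m k k') e1 f1 && vl m (j2 k k') e2 f2 &&
  vl (!m) (j1 (!m) k' k) f1 e1 && vl (!m) (j2 k' k) f2 e2 &&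
  chkB m k k' e1 f1 e2 f2 h h' b b' && chkB (!m) k' k f1 e1 f2 e2 h' h b' b

/-- the local condition holds in the whole quadrant -/
def GQ (m : Bool) (k k' e1 f1 e2 f2 h h' b b' : ℕ) : Prop :=
  ∀ x y : ℕ, 1 ≤ x → 1 ≤ y → lc m k k' e1 f1 e2 f2 h h' b b' x y = true

theorem GQ_of_chkQ {m : Bool} {k k' e1 f1 e2 f2 h h' b b' : ℕ}
    (H : chkQ m k k' e1 f1 e2 f2 h h' b b' = true) :
    GQ m k k' e1 f1 e2 f2 h h' b b' ∧ GQ (!m) k' k f1 e1 f2 e2 h' h b' b := by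
  unfold chkQ bnd at H
  simp only [Bool.and_eq_true, Nat.blt_eq] at H
  obtain ⟨⟨⟨⟨⟨⟨⟨⟨⟨⟨⟨hk, hk'⟩, he1⟩, hf1⟩, he2⟩, hf2⟩, v1⟩, v2⟩, v3⟩, v4⟩, c1⟩, c2⟩ := H
  constructor
  · intro x y hx hy
    by_cases h5 : 5 ≤ x
    · rw [lc_row _ _ _ _ _ _ _ _ _ _ _ _ h5]
      exact lcRow_all hk hk' he1 hf1 v1 x y h5 hy
    · by_cases h6 : 5 ≤ y
      · rw [lc_col _ _ _ _ _ _ _ _ _ _ _ _ h6]
        exact lcCol_all hk hk' he2 hf2 v2 x y hx h6
      · unfold chkB at c1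
        rw [allN_iff] at c1
        have := c1 x hx (by omega)
        rw [allN_iff] at this
        exact this y hy (by omega)
  · intro x y hx hy
    by_cases h5 : 5 ≤ x
    · rw [lc_row _ _ _ _ _ _ _ _ _ _ _ _ h5]
      exact lcRow_all hk' hk hf1 he1 v3 x y h5 hy
    · by_cases h6 : 5 ≤ y
      · rw [lc_col _ _ _ _ _ _ _ _ _ _ _ _ h6]
        exact lcCol_all hk' hk hf2 he2 v4 x y hx h6
      · unfold chkB at c2
        rw [allN_iff] at c2
        have := c2 x hx (by omega)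
        rw [allN_iff] at this
        exact this y hy (by omega)

/-- what the local condition says -/
theorem lc_spec {m : Bool} {k k' e1 f1 e2 f2 h h' b b' x y : ℕ}
    (H : lc m k k' e1 f1 e2 f2 h h' b b' x y = true) (hQ : Q m k e1 e2 h x y = true) :
    let d := mv m k k' e1 f1 e2 f2 b x y
    Q (!m) k' f1 f2 h' (sx d x) (sy d y) = true ∧
      mv (!m) k' k f1 e1 f2 e2 b' (sx d x) (sy d y) = opp d ∧ d ≤ 4 := by
  unfold lc at H
  rw [hQ, cond_true] at H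
  simp only [Bool.and_eq_true, Nat.beq_eq, Nat.ble_eq] at H
  exact ⟨H.1.1, H.1.2, H.2⟩

end Pool.Agent.H511R3.EDom
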