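import Pool.Agent.H511R3.EDomDefs
set_option autoImplicit false
namespace Pool.Agent.H511R3.EDom
theorem chkRow_false_0 : chkRow false 0 = true := by decide +kernel
theorem chkCol_false_0 : chkCol false 0 = true := by decide +kernel
theorem chkRow_false_1 : chkRow false 1 = true := by decide +kernel
theorem chkCol_false_1 : chkCol false 1 = true := by decide +kernel
theorem chkRow_false_2 : chkRow false 2 = true := by decide +kernel
theorem chkCol_false_2 : chkCol false 2 = true := by decide +kernel
theorem chkRow_false_3 : chkRow false 3 = true := by decide +kernel
theorem chkCol_false_3 : chkCol false 3 = true := by decide +kernel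
theorem chkRow_false_4 : chkRow false 4 = true := by decide +kernel
theorem chkCol_false_4 : chkCol false 4 = true := by decide +kernel
theorem chkRow_true_0 : chkRow true 0 = true := by decide +kernel
theorem chkCol_true_0 : chkCol true 0 = true := by decide +kernel
theorem chkRow_true_1 : chkRow true 1 = true := by decide +kernel
theorem chkCol_true_1 : chkCol true 1 = true := by decide +kernel
theorem chkRow_true_2 : chkRow true 2 = true := by decide +kernel
theorem chkCol_true_2 : chkCol true 2 = true := by decide +kernel
theorem chkRow_true_3 : chkRow true 3 = true := by decide +kernel
theorem chkCol_true_3 : chkCol true 3 = true := by decide +kernel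
theorem chkRow_true_4 : chkRow true 4 = true := by decide +kernel
theorem chkCol_true_4 : chkCol true 4 = true := by decide +kernel
end Pool.Agent.H511R3.EDom
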