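import Pool.Agent.H511R3.EDomCount
import Pool.Agent.H511R3.EDomData0
import Pool.Agent.H511R3.EDomData1
import Pool.Agent.H511R3.EDomData2
import Pool.Agent.H511R3.EDomData3
import Pool.Agent.H511R3.EDomData4

set_option autoImplicit false

namespace Pool.Agent.H511R3.EDom

open Finset

theorem closed_all (N : ℕ) : ∃ (sts : List St) (i0 : ℕ), Closed N sts ∧ i0 < sts.length ∧
    (sts.getD i0 d0).k < 5 ∧ ∀ s, s < 4 → EE (sts.getD i0 d0).e s < 4 := by
  have h : N % 5 = 0 ∨ N % 5 = 1 ∨ N % 5 = 2 ∨ N % 5 = 3 ∨ N % 5 = 4 := by omega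
  rcases h with h | h | h | h | h
  · exact ⟨sts0, 0, closed0 h, by decide, by decide, by decide⟩
  · exact ⟨sts1, 0, closed1 h, by decide, by decide, by decide⟩
  · exact ⟨sts2, 3, closed2 h, by decide, by decide, by decide⟩
  · exact ⟨sts3, 0, closed3 h, by decide, by decide, by decide⟩
  · exact ⟨sts4, 0, closed4 h, by decide, by decide, by decide⟩

/-- embedding of the grid -/
def emb {n : ℕ} (w : Fin n × Fin n) : ℕ × ℕ := (w.1.1 + 1, w.2.1 + 1)

theorem emb_gr {n : ℕ} (w : Fin n × Fin n) : Gr (n + 1) (emb w) := by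
  unfold Gr emb; simp only; omega

theorem emb_inj {n : ℕ} {w w' : Fin n × Fin n} (h : emb w = emb w') : w = w' := by
  unfold emb at h
  simp only [Prod.mk.injEq, add_left_inj] at h
  exact Prod.ext (Fin.ext h.1) (Fin.ext h.2)

/-- inverse of the embedding -/
noncomputable def back {n : ℕ} (w : Fin n × Fin n) (p : ℕ × ℕ) : Fin n × Fin n := by
  classical
  exact if h : Gr (n + 1) p then
    (⟨p.1 - 1, by unfold Gr at h; omega⟩, ⟨p.2 - 1, by unfold Gr at h; omega⟩) else w

theorem emb_back {n : ℕ} (w : Fin n × Fin n) {p : ℕ × ℕ} (h : Gr (n + 1) p) :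
    emb (back w p) = p := by
  unfold back
  rw [dif_pos h]
  unfold emb
  unfold Gr at h
  ext <;> simp only <;> omega

theorem adj_of_near {n : ℕ} {w w' : Fin n × Fin n} (h : near (emb w) (emb w')) :
    w' = w ∨ (SimpleGraph.boxProd (SimpleGraph.pathGraph n)
                  (SimpleGraph.pathGraph n)).Adj w w' := by
  rcases h with h | ⟨h1, h2⟩ | ⟨h1, h2⟩
  · exact Or.inl (emb_inj h).symm
  · right
    rw [SimpleGraph.boxProd_adj]
    right
    refine ⟨?_, ?_⟩
    · rw [SimpleGraph.pathGraph_adj]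
      unfold emb at h2
      simp only at h2
      omega
    · unfold emb at h1
      simp only at h1
      exact Fin.ext (by omega)
  · right
    rw [SimpleGraph.boxProd_adj]
    left
    refine ⟨?_, ?_⟩
    · rw [SimpleGraph.pathGraph_adj]
      unfold emb at h2
      simp only at h2
      omega
    · unfold emb at h1
      simp only at h1
      exact Fin.ext (by omega)

/-- the configuration of a state -/
noncomputable def Dn (n : ℕ) (σ : St) : Finset (Fin n × Fin n) := by
  classical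
  exact univ.filter (fun w => G (n + 1) σ (emb w))

theorem mem_Dn {n : ℕ} {σ : St} {w : Fin n × Fin n} : w ∈ Dn n σ ↔ G (n + 1) σ (emb w) := by
  unfold Dn
  simp

theorem Dn_move {n : ℕ} (hn : 11 ≤ n) {σ τ : St} {b c : ℕ} (H : Tr (n + 1) σ τ b c) :
    ∃ f : Fin n × Fin n → Fin n × Fin n,
      Set.InjOn f (Dn n σ : Set (Fin n × Fin n)) ∧ (Dn n σ).image f = Dn n τ ∧
      ∀ x ∈ Dn n σ, f x = x ∨
                (SimpleGraph.boxProd (SimpleGraph.pathGraph n)
                  (SimpleGraph.pathGraph n)).Adj x (f x) := by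
  have key : ∀ (σ τ : St) (b c : ℕ), Tr (n + 1) σ τ b c → ∀ x ∈ Dn n σ,
      (back x (fT (n + 1) σ τ b (emb x)) ∈ Dn n τ) ∧
      (near (emb x) (emb (back x (fT (n + 1) σ τ b (emb x))))) ∧
      (fT (n + 1) τ σ c (emb (back x (fT (n + 1) σ τ b (emb x)))) = emb x) := by
    intro σ τ b c H x hx
    obtain ⟨h1, h2, h3, h4⟩ := fT_spec (by omega) H (emb_gr x) (mem_Dn.1 hx)
    have e := emb_back x h1
    refine ⟨?_, ?_, ?_⟩
    · rw [mem_Dn, e]; exact h2
    · rw [e]; exact h3
    · rw [e]; exact h4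
  refine ⟨fun x => back x (fT (n + 1) σ τ b (emb x)), ?_, ?_, ?_⟩
  · intro x hx y hy hxy
    simp only at hxy
    have h1 := (key σ τ b c H x hx).2.2
    have h2 := (key σ τ b c H y hy).2.2
    rw [hxy, h2] at h1
    exact (emb_inj h1).symm
  · ext y
    rw [mem_image]
    constructor
    · rintro ⟨x, hx, rfl⟩
      exact (key σ τ b c H x hx).1
    · intro hy
      obtain ⟨h1, h2, h3⟩ := key τ σ c b H.symm y hy
      refine ⟨_, h1, ?_⟩
      apply emb_inj
      rw [h3]
      exact emb_back _ (emb_gr y)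
  · intro x hx
    exact adj_of_near (key σ τ b c H x hx).2.1

theorem Dn_card {n : ℕ} (hn : 11 ≤ n) {σ : St} (hk : σ.k < 5)
    (he : ∀ s, s < 4 → EE σ.e s < 4) : 5 * (Dn n σ).card ≤ (n + 2) ^ 2 + 222 := by
  classical
  have h := card_G hn hk he ((Dn n σ).image emb) (by
    intro v hv
    rw [mem_image] at hv
    obtain ⟨w, hw, rfl⟩ := hv
    exact ⟨emb_gr w, mem_Dn.1 hw⟩)
  rwa [card_image_of_injective _ (fun w w' h => emb_inj h)] at h

/-- **Upper bound**: for all `n` there is an `m`-eternal dominating family of sets of size at most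
`((n+2)^2 + C)/5`. -/
theorem ub : ∃ C : ℕ, ∀ n : ℕ, ∃ (F : Set (Finset (Fin n × Fin n))) (k : ℕ), F.Nonempty ∧
    (∀ D ∈ F, D.card = k) ∧ 5 * k ≤ (n + 2) ^ 2 + C ∧
    ∀ D ∈ F, ∀ v : Fin n × Fin n, ∃ D' ∈ F, v ∈ D' ∧
      ∃ f : Fin n × Fin n → Fin n × Fin n,
        Set.InjOn f (D : Set (Fin n × Fin n)) ∧ D.image f = D' ∧
        ∀ x ∈ D, f x = x ∨
          (SimpleGraph.boxProd (SimpleGraph.pathGraph n)
            (SimpleGraph.pathGraph n)).Adj x (f x) := by
  refine ⟨500, fun n => ?_⟩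
  by_cases hn : n < 11
  · refine ⟨{univ}, n * n, Set.singleton_nonempty _, ?_, ?_, ?_⟩
    · intro D hD
      rw [Set.mem_singleton_iff] at hD
      rw [hD]
      simp
    · have : n * n ≤ 10 * 10 := Nat.mul_le_mul (by omega) (by omega)
      have : 0 ≤ (n + 2) ^ 2 := Nat.zero_le _
      omega
    · intro D hD v
      rw [Set.mem_singleton_iff] at hD
      subst hD
      refine ⟨univ, rfl, mem_univ _, id, Function.injective_id.injOn, image_id, ?_⟩
      intro x _
      exact Or.inl rfl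
  · have hn' : 11 ≤ n := by omega
    obtain ⟨sts, i0, hcl, hi0, hk, he⟩ := closed_all (n + 1)
    refine ⟨{D | ∃ i, i < sts.length ∧ D = Dn n (sts.getD i d0) ∧
      D.card = (Dn n (sts.getD i0 d0)).card}, (Dn n (sts.getD i0 d0)).card, ?_, ?_, ?_, ?_⟩
    · exact ⟨Dn n (sts.getD i0 d0), i0, hi0, rfl, rfl⟩
    · rintro D ⟨i, _, _, h⟩
      exact h
    · have := Dn_card hn' hk he
      omega
    · rintro D ⟨i, hi, hD, hc⟩ v
      obtain ⟨s, hs⟩ := exists_half (emb_gr v)
      have hsafe := safe_of_half (by omega) (fr_gr (emb_gr v) s) hs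
      obtain ⟨j, hj, b, c, hTr, hq⟩ := hcl i hi s (fr (n + 1) s (emb v)).1
        (fr (n + 1) s (emb v)).2 hsafe.1 hsafe.2.1
      obtain ⟨f, f1, f2, f3⟩ := Dn_move hn' hTr
      have hcard : (Dn n (sts.getD j d0)).card = (Dn n (sts.getD i d0)).card := by
        rw [← f2]
        exact card_image_of_injOn f1
      refine ⟨Dn n (sts.getD j d0), ⟨j, hj, rfl, ?_⟩, ?_, f, ?_, ?_, ?_⟩
      · rw [hcard, ← hD, hc]
      · rw [mem_Dn, G_iff hTr.hk' (emb_gr v) hsafe]
        exact hq
      · rw [hD]; exact f1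
      · rw [hD]; exact f2
      · rw [hD]; exact f3

end Pool.Agent.H511R3.EDom
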