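import Pool.Agent.H511R3.HLInd

/-!
Counting homomorphisms from a graph on `Fin n` to a relation, disjoint unions and products.
-/

set_option autoImplicit false

namespace Pool.Agent.H511R3

open Finset

/-- In a tree every nonempty vertex set contains a vertex with at most one neighbour in it. -/
lemma tree_leaf {V : Type*} [Fintype V] [DecidableEq V] (T : SimpleGraph V)
    [DecidableRel T.Adj] (hT : T.IsTree) :
    ∀ S : Finset V, S.Nonempty → ∃ v ∈ S, (S.filter (T.Adj v)).card ≤ 1 := by
  intro S hS
  obtain ⟨r⟩ := hT.connected.nonempty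
  have hp : ∀ v, ∃ p : T.Walk r v, p.IsPath := fun v => (hT.existsUnique_path r v).exists
  choose P hP using hp
  obtain ⟨v, hv, hmax⟩ := exists_max_image S (fun v => (P v).length) hS
  refine ⟨v, hv, ?_⟩
  rw [card_le_one]
  have key : ∀ a ∈ S.filter (T.Adj v), a = (P v).penultimate := by
    intro a ha
    rw [mem_filter] at ha
    by_cases hs : a ∈ (P v).support
    · exact hT.isAcyclic.eq_penultimate_of_adj_end (hP v) ha.2 hs
    · exfalso
      have h1 : ((P v).concat ha.2).IsPath := (hP v).concat hs ha.2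
      have h2 : P a = (P v).concat ha.2 := (hT.existsUnique_path r a).unique (hP a) h1
      have h3 := hmax a ha.1
      rw [h2, SimpleGraph.Walk.length_concat] at h3
      omega
  intro a ha b hb
  rw [key a ha, key b hb]

/-- Number of homomorphisms. -/
noncomputable def Cnt {n : ℕ} {V : Type} (T : SimpleGraph (Fin n)) (R : V → V → Prop) : ℕ :=
  Nat.card {f : Fin n → V // ∀ u v, T.Adj u v → R (f u) (f v)}

def R0 (a b : Bool) : Prop := ¬ (a = true ∧ b = true)

lemma cnt_R0 {n : ℕ} (T : SimpleGraph (Fin n)) [DecidableRel T.Adj] :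
    Cnt T R0 = ind T univ := by
  unfold Cnt ind
  rw [← Nat.subtype_card (p := fun I : Finset (Fin n) => ∀ u ∈ I, ∀ v ∈ I, ¬ T.Adj u v) _
    (by intro I; simp)]
  apply Nat.card_congr
  refine ⟨fun f => ⟨univ.filter (fun v => f.1 v = true), ?_⟩,
    fun I => ⟨fun v => decide (v ∈ I.1), ?_⟩, ?_, ?_⟩
  · intro u hu v hv hadj
    simp only [mem_filter, mem_univ, true_and] at hu hv
    exact f.2 u v hadj ⟨hu, hv⟩
  · intro u v hadj h
    simp only [decide_eq_true_eq] at h
    exact I.2 u h.1 v h.2 hadj
  · intro f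
    apply Subtype.ext
    funext v
    simp
  · intro I
    apply Subtype.ext
    ext v
    simp

lemma cnt_mul {n : ℕ} (q : ℕ) (T : SimpleGraph (Fin n)) {V : Type} (R : V → V → Prop) :
    Cnt T (fun x y : V × Fin q => R x.1 y.1) = q ^ n * Cnt T R := by
  unfold Cnt
  have e : {f : Fin n → V × Fin q // ∀ u v, T.Adj u v → R (f u).1 (f v).1} ≃
      (Fin n → Fin q) × {f : Fin n → V // ∀ u v, T.Adj u v → R (f u) (f v)} :=
    ⟨fun f => (fun v => (f.1 v).2, ⟨fun v => (f.1 v).1, f.2⟩),
      fun g => ⟨fun v => (g.2.1 v, g.1 v), g.2.2⟩, fun f => rfl, fun g => rfl⟩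
  rw [Nat.card_congr e, Nat.card_prod]
  congr 1
  simp

/-- Disjoint union of `R1` with `m` copies of `R2`. -/
def RU {V1 V2 : Type} (m : ℕ) (R1 : V1 → V1 → Prop) (R2 : V2 → V2 → Prop) :
    V1 ⊕ (Fin m × V2) → V1 ⊕ (Fin m × V2) → Prop
  | Sum.inl x, Sum.inl y => R1 x y
  | Sum.inr x, Sum.inr y => x.1 = y.1 ∧ R2 x.2 y.2
  | _, _ => False

lemma cnt_union {n : ℕ} (T : SimpleGraph (Fin n)) (hT : T.Connected) {V1 V2 : Type}
    [Finite V1] [Finite V2] (m : ℕ)
    (R1 : V1 → V1 → Prop) (R2 : V2 → V2 → Prop) :
    Cnt T (RU m R1 R2) = Cnt T R1 + m * Cnt T R2 := by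
  unfold Cnt
  obtain ⟨r⟩ := hT.nonempty
  set Φ : {f : Fin n → V1 // ∀ u v, T.Adj u v → R1 (f u) (f v)} ⊕
      (Fin m × {f : Fin n → V2 // ∀ u v, T.Adj u v → R2 (f u) (f v)}) →
      {f : Fin n → V1 ⊕ (Fin m × V2) // ∀ u v, T.Adj u v → RU m R1 R2 (f u) (f v)} :=
    Sum.elim (fun f => ⟨fun v => Sum.inl (f.1 v), fun u v h => f.2 u v h⟩)
      (fun g => ⟨fun v => Sum.inr (g.1, g.2.1 v), fun u v h => ⟨rfl, g.2.2 u v h⟩⟩) with hΦ
  have hinj : Function.Injective Φ := by
    intro a b hab
    rcases a with a | a <;> rcases b with b | b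
    · congr 1
      apply Subtype.ext
      funext v
      have := congrFun (congrArg Subtype.val hab) v
      simpa [hΦ] using this
    · have := congrFun (congrArg Subtype.val hab) r
      simp [hΦ] at this
    · have := congrFun (congrArg Subtype.val hab) r
      simp [hΦ] at this
    · have h1 := congrFun (congrArg Subtype.val hab) r
      simp only [hΦ, Sum.elim_inr, Sum.inr.injEq, Prod.mk.injEq] at h1
      congr 1
      apply Prod.ext h1.1
      apply Subtype.ext
      funext v
      have := congrFun (congrArg Subtype.val hab) v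
      simp only [hΦ, Sum.elim_inr, Sum.inr.injEq, Prod.mk.injEq] at this
      exact this.2
  have hsurj : Function.Surjective Φ := by
    rintro ⟨f, hf⟩
    have hconst : ∀ (g : V1 ⊕ (Fin m × V2) → Option (Fin m)),
        (∀ x y, RU m R1 R2 x y → g x = g y) → ∀ v, g (f v) = g (f r) := by
      intro g hg v
      obtain ⟨w⟩ := hT.preconnected v r
      induction w with
      | nil => rfl
      | cons h _ ih => rw [hg _ _ (hf _ _ h)]; exact ih
    have hc := hconst (Sum.elim (fun _ => none) (fun x => some x.1)) (by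
      intro x y h
      rcases x with x | x <;> rcases y with y | y
      · rfl
      · exact h.elim
      · exact h.elim
      · simp only [Sum.elim_inr]
        rw [h.1])
    rcases hr : f r with x | x
    · have hall : ∀ v, ∃ y, f v = Sum.inl y := by
        intro v
        have := hc v
        rw [hr] at this
        rcases hv : f v with y | y
        · exact ⟨y, rfl⟩
        · rw [hv] at this
          simp at this
      choose g hg using hall
      refine ⟨Sum.inl ⟨g, ?_⟩, ?_⟩
      · intro u v h
        have := hf u v h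
        rw [hg u, hg v] at this
        exact this
      · apply Subtype.ext
        funext v
        simp only [hΦ, Sum.elim_inl]
        exact (hg v).symm
    · have hall : ∀ v, ∃ y, f v = Sum.inr (x.1, y) := by
        intro v
        have := hc v
        rw [hr] at this
        rcases hv : f v with y | y
        · rw [hv] at this
          simp at this
        · rw [hv] at this
          simp only [Sum.elim_inr, Option.some.injEq] at this
          refine ⟨y.2, ?_⟩
          rw [← this]
      choose g hg using hall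
      refine ⟨Sum.inr (x.1, ⟨g, ?_⟩), ?_⟩
      · intro u v h
        have := hf u v h
        rw [hg u, hg v] at this
        exact this.2
      · apply Subtype.ext
        funext v
        simp only [hΦ, Sum.elim_inr]
        exact (hg v).symm
  rw [← Nat.card_congr (Equiv.ofBijective Φ ⟨hinj, hsurj⟩), Nat.card_sum, Nat.card_prod]
  simp

lemma cnt_le {n : ℕ} (T : SimpleGraph (Fin n)) {V : Type} [Fintype V] (R : V → V → Prop) :
    Cnt T R ≤ Fintype.card V ^ n := by
  unfold Cnt
  calc Nat.card {f : Fin n → V // ∀ u v, T.Adj u v → R (f u) (f v)}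
      ≤ Nat.card (Fin n → V) := Nat.card_le_card_of_injective _ Subtype.val_injective
    _ = Fintype.card V ^ n := by
      rw [Nat.card_eq_fintype_card, Fintype.card_fun, Fintype.card_fin]

/-- A tree with an induced Hamiltonian path enumeration has the same counts as the path. -/
lemma cnt_path {n : ℕ} (T : SimpleGraph (Fin n)) {V : Type} (R : V → V → Prop)
    (p : ℕ → Fin n) (hp : PathOn T p n) : Cnt T R = Cnt (SimpleGraph.pathGraph n) R := by
  have hinj : Function.Injective (fun i : Fin n => p i) := by
    intro i j hij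
    exact Fin.ext (hp.1 i j i.2 j.2 hij)
  have hbij : Function.Bijective (fun i : Fin n => p i) :=
    Finite.injective_iff_bijective.mp hinj
  set σ : Fin n ≃ Fin n := Equiv.ofBijective _ hbij with hσ
  unfold Cnt
  apply Nat.card_congr
  refine ⟨fun f => ⟨fun i => f.1 (σ i), ?_⟩, fun f => ⟨fun i => f.1 (σ.symm i), ?_⟩, ?_, ?_⟩
  · intro u v h
    apply f.2
    rw [SimpleGraph.pathGraph_adj] at h
    exact (hp.2 u v u.2 v.2).mpr h
  · intro u v h
    apply f.2
    rw [SimpleGraph.pathGraph_adj]
    rw [← hp.2 _ _ (σ.symm u).2 (σ.symm v).2]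
    have h1 : p (σ.symm u) = u := σ.apply_symm_apply u
    have h2 : p (σ.symm v) = v := σ.apply_symm_apply v
    rw [h1, h2]
    exact h
  · intro f
    apply Subtype.ext
    funext v
    simp
  · intro f
    apply Subtype.ext
    funext v
    simp

/-- Independent sets of the path. -/
lemma ind_path (n : ℕ) (hn : 0 < n) : Cnt (SimpleGraph.pathGraph n) R0 = Nat.fib (n + 2) := by
  classical
  rw [cnt_R0]
  have hp : PathOn (SimpleGraph.pathGraph n) (fun i => if h : i < n then (⟨i, h⟩ : Fin n)
      else ⟨0, hn⟩) n := by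
    refine ⟨fun i j hi hj hij => ?_, fun i j hi hj => ?_⟩
    · simpa [hi, hj] using hij
    · simp [hi, hj, SimpleGraph.pathGraph_adj]
  rw [← PathOn.ind_eq _ n hp]
  congr 1
  ext v
  simp only [mem_univ, mem_image, mem_range, true_iff]
  exact ⟨v, v.2, by simp⟩

/-- The comparison for independent sets. -/
lemma tree_cases {n : ℕ} (T : SimpleGraph (Fin n)) (hT : T.IsTree) :
    (∃ p : ℕ → Fin n, PathOn T p n) ∨ Nat.fib (n + 2) + 1 ≤ Cnt T R0 := by
  classical
  have := hT.connected.nonempty
  obtain ⟨h1, h2⟩ := main_ind (tree_leaf T hT) n univ (by simp)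
  rw [← cnt_R0] at h1 h2
  rcases Nat.lt_or_ge (Nat.fib (n + 2)) (Cnt T R0) with h | h
  · right; exact h
  · left
    obtain ⟨p, hp, _⟩ := h2 (le_antisymm h h1)
    exact ⟨p, hp⟩

end Pool.Agent.H511R3
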