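import Mathlib

/-!
Independent sets in forests: the path is the unique minimiser.
-/

set_option autoImplicit false

namespace Pool.Agent.H511R3

open Finset

section ind

variable {V : Type*} [DecidableEq V] (G : SimpleGraph V) [DecidableRel G.Adj]

/-- Number of independent subsets of `S`. -/
def ind (S : Finset V) : ℕ :=
  (S.powerset.filter (fun I => ∀ u ∈ I, ∀ v ∈ I, ¬ G.Adj u v)).card

lemma ind_empty : ind G ∅ = 1 := by
  unfold ind
  rw [powerset_empty, filter_true_of_mem (by simp)]
  simp

lemma ind_del (S : Finset V) (v : V) (hv : v ∈ S) :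
    ind G S = ind G (S.erase v) + ind G ((S.erase v).filter (fun w => ¬ G.Adj v w)) := by
  unfold ind
  rw [← card_filter_add_card_filter_not (s := S.powerset.filter
    (fun I => ∀ u ∈ I, ∀ w ∈ I, ¬ G.Adj u w)) (fun I => v ∉ I)]
  congr 1
  · congr 1
    ext I
    simp only [mem_filter, mem_powerset, subset_erase]
    tauto
  · refine card_bij' (fun I _ => I.erase v) (fun J _ => insert v J) ?_ ?_ ?_ ?_
    · intro I hI
      simp only [mem_filter, mem_powerset, not_not] at hI ⊢
      obtain ⟨⟨hIS, hind⟩, hvI⟩ := hI
      refine ⟨?_, ?_⟩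
      · intro w hw
        rw [mem_erase] at hw
        rw [mem_filter, mem_erase]
        exact ⟨⟨hw.1, hIS hw.2⟩, hind v hvI w hw.2⟩
      · intro a ha b hb
        exact hind a (mem_of_mem_erase ha) b (mem_of_mem_erase hb)
    · intro J hJ
      simp only [mem_filter, mem_powerset, not_not] at hJ ⊢
      obtain ⟨hJS, hind⟩ := hJ
      have hJ1 : ∀ w ∈ J, w ∈ S ∧ ¬ G.Adj v w := by
        intro w hw
        have := hJS hw
        rw [mem_filter, mem_erase] at this
        exact ⟨this.1.2, this.2⟩
      refine ⟨⟨?_, ?_⟩, mem_insert_self _ _⟩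
      · intro w hw
        rw [mem_insert] at hw
        rcases hw with rfl | hw
        · exact hv
        · exact (hJ1 w hw).1
      · intro a ha b hb
        rw [mem_insert] at ha hb
        rcases ha with rfl | ha <;> rcases hb with rfl | hb
        · exact G.irrefl
        · exact (hJ1 b hb).2
        · exact fun h => (hJ1 a ha).2 h.symm
        · exact hind a ha b hb
    · intro I hI
      simp only [mem_filter, not_not] at hI
      exact insert_erase hI.2
    · intro J hJ
      simp only [mem_filter, mem_powerset] at hJ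
      apply erase_insert
      intro hvJ
      have := hJ.1 hvJ
      simp at this

/-- `p 0, …, p (n-1)` enumerates an induced path. -/
def PathOn (p : ℕ → V) (n : ℕ) : Prop :=
  (∀ i j, i < n → j < n → p i = p j → i = j) ∧
  (∀ i j, i < n → j < n → (G.Adj (p i) (p j) ↔ (i + 1 = j ∨ j + 1 = i)))

variable {G}

lemma PathOn.mono {p : ℕ → V} {n k : ℕ} (h : PathOn G p n) (hk : k ≤ n) : PathOn G p k :=
  ⟨fun i j hi hj => h.1 i j (hi.trans_le hk) (hj.trans_le hk),
    fun i j hi hj => h.2 i j (hi.trans_le hk) (hj.trans_le hk)⟩

lemma PathOn.reverse {p : ℕ → V} {n : ℕ} (h : PathOn G p n) :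
    PathOn G (fun i => p (n - 1 - i)) n := by
  refine ⟨fun i j hi hj hij => ?_, fun i j hi hj => ?_⟩
  · have := h.1 _ _ (by omega) (by omega) hij
    omega
  · rw [h.2 _ _ (by omega) (by omega)]
    omega

lemma image_range_succ (p : ℕ → V) (n : ℕ) :
    (range (n + 1)).image p = insert (p n) ((range n).image p) := by
  rw [range_add_one, image_insert]

lemma PathOn.ind_eq (p : ℕ → V) : ∀ n, PathOn G p n →
    ind G ((range n).image p) = Nat.fib (n + 2)
  | 0, _ => by simp [ind_empty]
  | 1, h => by
    rw [ind_del G _ (p 0) (by simp)]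
    simp [ind_empty]
    rfl
  | (n + 2), h => by
    have h1 : ((range (n + 2)).image p).erase (p (n + 1)) = (range (n + 1)).image p := by
      rw [image_range_succ, erase_insert]
      simp only [mem_image, mem_range, not_exists, not_and]
      intro i hi hpi
      have := h.1 i (n + 1) (by omega) (by omega) hpi
      omega
    have h2 : ((range (n + 1)).image p).filter (fun w => ¬ G.Adj (p (n + 1)) w)
        = (range n).image p := by
      ext w
      simp only [mem_filter, mem_image, mem_range]
      constructor
      · rintro ⟨⟨i, hi, rfl⟩, hw⟩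
        rw [h.2 _ _ (by omega) (by omega)] at hw
        exact ⟨i, by omega, rfl⟩
      · rintro ⟨i, hi, rfl⟩
        refine ⟨⟨i, by omega, rfl⟩, ?_⟩
        rw [h.2 _ _ (by omega) (by omega)]
        omega
    rw [ind_del G _ (p (n + 1)) (by rw [image_range_succ]; simp), h1, h2,
      PathOn.ind_eq p (n + 1) (h.mono (by omega)), PathOn.ind_eq p n (h.mono (by omega))]
    rw [Nat.fib_add_two (n := n + 2)]
    ring

/-- Key combination step. -/
lemma PathOn.extend {p p' : ℕ → V} {n : ℕ} {u v : V}
    (h : PathOn G p (n + 1)) (h' : PathOn G p' n)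
    (hu : u ∈ (range (n + 1)).image p)
    (hp' : (range n).image p' = ((range (n + 1)).image p).erase u)
    (hv : v ∉ (range (n + 1)).image p)
    (hadj : ∀ w ∈ (range (n + 1)).image p, G.Adj v w ↔ w = u) :
    ∃ r : ℕ → V, PathOn G r (n + 2) ∧
      (range (n + 2)).image r = insert v ((range (n + 1)).image p) := by
  -- the version when `u` is the last vertex
  have last : ∀ r : ℕ → V, PathOn G r (n + 1) → (range (n + 1)).image r = (range (n + 1)).image p →
      r n = u → ∃ r : ℕ → V, PathOn G r (n + 2) ∧
      (range (n + 2)).image r = insert v ((range (n + 1)).image p) := by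
    intro r hr him hru
    have hmem : ∀ i, i < n + 1 → r i ∈ (range (n + 1)).image p := by
      intro i hi
      rw [← him]
      exact mem_image_of_mem _ (mem_range.mpr hi)
    refine ⟨fun i => if i < n + 1 then r i else v, ⟨?_, ?_⟩, ?_⟩
    · intro i j hi hj hij
      simp only at hij
      split_ifs at hij with h1 h2 h2
      · exact hr.1 i j h1 h2 hij
      · exact absurd (hij ▸ hmem i h1) hv
      · exact absurd (hij ▸ hmem j h2) hv
      · omega
    · intro i j hi hj
      have key : ∀ i, i < n + 1 → (G.Adj v (r i) ↔ i = n) := by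
        intro i hi
        rw [hadj _ (hmem i hi), ← hru]
        constructor
        · exact fun h => hr.1 i n hi (by omega) h
        · rintro rfl; rfl
      simp only
      split_ifs with h1 h2 h2
      · exact hr.2 i j h1 h2
      · rw [G.adj_comm, key i h1]; omega
      · rw [key j h2]; omega
      · simp only [SimpleGraph.irrefl, false_iff]; omega
    · rw [image_range_succ, ← him]
      simp only [lt_irrefl, if_false]
      congr 1
      apply image_congr
      intro i hi
      simp only [coe_range, Set.mem_Iio] at hi
      simp [hi]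
  obtain ⟨k, hk, hpk⟩ := mem_image.mp hu
  rw [mem_range] at hk
  by_cases hkn : k = n
  · subst hkn
    exact last p h rfl hpk
  by_cases hk0 : k = 0
  · subst hk0
    apply last _ h.reverse
    · ext w
      simp only [mem_image, mem_range]
      constructor
      · rintro ⟨i, hi, rfl⟩
        exact ⟨n + 1 - 1 - i, by omega, rfl⟩
      · rintro ⟨i, hi, rfl⟩
        exact ⟨n - i, by omega, by congr 1; omega⟩
    · simpa using hpk
  -- interior: contradiction
  exfalso
  have hσ : ∀ i, i < n → ∃ j, j < n + 1 ∧ j ≠ k ∧ p j = p' i := by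
    intro i hi
    have : p' i ∈ (range n).image p' := mem_image_of_mem _ (mem_range.mpr hi)
    rw [hp', mem_erase, mem_image] at this
    obtain ⟨hne, j, hj, hpj⟩ := this
    rw [mem_range] at hj
    refine ⟨j, hj, ?_, hpj⟩
    rintro rfl
    exact hne (hpj.symm.trans hpk)
  choose! σ hσ1 hσ2 hσ3 using hσ
  have hside : ∀ i, i + 1 < n → (σ i < k ↔ σ (i + 1) < k) := by
    intro i hi
    have h1 : G.Adj (p' i) (p' (i + 1)) := (h'.2 i (i + 1) (by omega) hi).mpr (Or.inl rfl)
    rw [← hσ3 i (by omega), ← hσ3 (i + 1) hi,
      h.2 _ _ (hσ1 i (by omega)) (hσ1 (i + 1) hi)] at h1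
    have h2 := hσ2 i (by omega)
    have h3 := hσ2 (i + 1) hi
    omega
  have hall : ∀ i, i < n → (σ i < k ↔ σ 0 < k) := by
    intro i
    induction i with
    | zero => intro _; rfl
    | succ i ih => intro hi; rw [← hside i hi]; exact ih (by omega)
  have hback : ∀ j, j < n + 1 → j ≠ k → ∃ i, i < n ∧ σ i = j := by
    intro j hj hjk
    have : p j ∈ (range n).image p' := by
      rw [hp', mem_erase]
      refine ⟨?_, mem_image_of_mem _ (mem_range.mpr hj)⟩
      rw [← hpk]
      intro hh
      exact hjk (h.1 j k hj hk hh)
    obtain ⟨i, hi, hpi⟩ := mem_image.mp this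
    rw [mem_range] at hi
    refine ⟨i, hi, ?_⟩
    apply h.1 _ _ (hσ1 i hi) hj
    rw [hσ3 i hi, hpi]
  obtain ⟨a, ha, hσa⟩ := hback 0 (by omega) (by omega)
  obtain ⟨b, hb, hσb⟩ := hback n (by omega) (by omega)
  have h1 := (hall a ha)
  have h2 := (hall b hb)
  rw [hσa] at h1
  rw [hσb] at h2
  have h3 : σ 0 < k := h1.mp (by omega)
  have h4 := h2.mpr h3
  omega

/-- Main bound: a graph all of whose nonempty vertex subsets contain a vertex with at most one
neighbour in the subset has at least Fibonacci many independent sets, with equality only for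
paths. -/
theorem main_ind [Nonempty V]
    (hleaf : ∀ S : Finset V, S.Nonempty → ∃ v ∈ S, (S.filter (G.Adj v)).card ≤ 1) :
    ∀ (n : ℕ) (S : Finset V), S.card = n →
      Nat.fib (n + 2) ≤ ind G S ∧
      (ind G S = Nat.fib (n + 2) → ∃ p : ℕ → V, PathOn G p n ∧ (range n).image p = S) := by
  intro n
  induction n using Nat.strong_induction_on with
  | _ n ih =>
    intro S hS
    rcases S.eq_empty_or_nonempty with rfl | hne
    · simp only [card_empty] at hS
      subst hS
      refine ⟨by simp [ind_empty], fun _ => ?_⟩
      obtain ⟨x⟩ := ‹Nonempty V›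
      exact ⟨fun _ => x, ⟨fun i j hi => absurd hi (by omega), fun i j hi => absurd hi (by omega)⟩,
          by simp⟩
    · obtain ⟨v, hv, hc⟩ := hleaf S hne
      have hS1 : (S.erase v).card = n - 1 := by rw [card_erase_of_mem hv, hS]
      have hn : 0 < n := by rw [← hS]; exact card_pos.mpr hne
      obtain ⟨m, rfl⟩ : ∃ m, n = m + 1 := ⟨n - 1, by omega⟩
      rw [Nat.add_sub_cancel] at hS1
      obtain ⟨ih1, ih1'⟩ := ih m (by omega) _ hS1
      have hdel := ind_del G S v hv
      rcases Nat.lt_or_ge (S.filter (G.Adj v)).card 1 with h0 | h1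
      · -- no neighbour
        have h0' : S.filter (G.Adj v) = ∅ := card_eq_zero.mp (by omega)
        have hf : (S.erase v).filter (fun w => ¬ G.Adj v w) = S.erase v := by
          apply filter_true_of_mem
          intro w hw hadj
          have : w ∈ S.filter (G.Adj v) := mem_filter.mpr ⟨mem_of_mem_erase hw, hadj⟩
          rw [h0'] at this
          simp at this
        rw [hf] at hdel
        have hfib : Nat.fib (m + 1 + 2) = Nat.fib (m + 1) + Nat.fib (m + 2) :=
          Nat.fib_add_two
        have hmono : Nat.fib (m + 1) ≤ Nat.fib (m + 2) := Nat.fib_mono (by omega)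
        refine ⟨by omega, fun heq => ?_⟩
        have hm : m = 0 := by
          by_contra hm
          have : Nat.fib (m + 1) < Nat.fib (m + 2) := by
            obtain ⟨k, rfl⟩ : ∃ k, m = k + 1 := ⟨m - 1, by omega⟩
            have h3 : Nat.fib (k + 1 + 2) = Nat.fib (k + 1) + Nat.fib (k + 1 + 1) :=
              Nat.fib_add_two
            have h4 : 0 < Nat.fib (k + 1) := Nat.fib_pos.mpr (by omega)
            omega
          omega
        subst hm
        have hS' : S = {v} := by
          rw [card_eq_one] at hS
          obtain ⟨w, rfl⟩ := hS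
          simp at hv
          rw [hv]
        refine ⟨fun _ => v, ⟨fun i j hi hj _ => by omega, fun i j hi hj => ?_⟩, ?_⟩
        · simp only [SimpleGraph.irrefl, false_iff]; omega
        · rw [hS']; rfl
      · -- one neighbour
        obtain ⟨u, hu⟩ := card_eq_one.mp (le_antisymm hc h1)
        have huS : u ∈ S ∧ G.Adj v u := by
          have : u ∈ S.filter (G.Adj v) := by rw [hu]; simp
          exact mem_filter.mp this
        have huv : u ≠ v := huS.2.ne'
        have hadj : ∀ w ∈ S, G.Adj v w ↔ w = u := by
          intro w hw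
          constructor
          · intro h
            have : w ∈ S.filter (G.Adj v) := mem_filter.mpr ⟨hw, h⟩
            rw [hu] at this
            simpa using this
          · rintro rfl
            exact huS.2
        have hf : (S.erase v).filter (fun w => ¬ G.Adj v w) = (S.erase v).erase u := by
          ext w
          simp only [mem_filter, mem_erase]
          constructor
          · rintro ⟨⟨h1, h2⟩, h3⟩
            exact ⟨fun h => h3 ((hadj w h2).mpr h), h1, h2⟩
          · rintro ⟨h1, h2, h3⟩
            exact ⟨⟨h2, h3⟩, fun h => h1 ((hadj w h3).mp h)⟩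
        rw [hf] at hdel
        have hu1 : u ∈ S.erase v := mem_erase.mpr ⟨huv, huS.1⟩
        have hm : 0 < m := by rw [← hS1]; exact card_pos.mpr ⟨u, hu1⟩
        obtain ⟨k, rfl⟩ : ∃ k, m = k + 1 := ⟨m - 1, by omega⟩
        have hS2 : ((S.erase v).erase u).card = k := by
          rw [card_erase_of_mem hu1, hS1]; omega
        obtain ⟨ih2, ih2'⟩ := ih k (by omega) _ hS2
        have hfib : Nat.fib (k + 1 + 1 + 2) = Nat.fib (k + 2) + Nat.fib (k + 1 + 2) :=
          Nat.fib_add_two
        refine ⟨by omega, fun heq => ?_⟩
        obtain ⟨p, hp, hpS⟩ := ih1' (by omega)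
        obtain ⟨p', hp', hpS'⟩ := ih2' (by omega)
        obtain ⟨r, hr, hrS⟩ := PathOn.extend (u := u) (v := v) hp hp' (by rw [hpS]; exact hu1)
          (by rw [hpS, hpS']) (by rw [hpS]; simp)
          (by rw [hpS]; intro w hw; exact hadj w (mem_of_mem_erase hw))
        exact ⟨r, hr, by rw [hrS, hpS, insert_erase hv]⟩

end ind

end Pool.Agent.H511R3
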